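import Pool.Agent.H93.TR.Main

/-!
MP_b12e0e_ag (helper31): the structural part for labels inside the factors. The factors are
`β i × K i`; the labels are functions of the second coordinates, and a tangent space in the
direction `i` gives whole lines in the fibres over the words which differ in the coordinate `i`.
-/

set_option autoImplicit false

open Set Function Module

namespace Pool.Agent.H31.TR

open Pool.Agent.H19.TR Pool.Agent.H93.TR

section
variable {ι : Type} [Fintype ι] [DecidableEq ι] {β : ι → Type} [∀ i, Fintype (β i)]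
  [∀ i, DecidableEq (β i)]

omit [Fintype ι] [DecidableEq ι] in
theorem single_expand (i : ι) (h : β i → ℝ) :
    h = ∑ b, h b • (Pi.single b 1 : β i → ℝ) := by
  funext c
  rw [Finset.sum_apply, Finset.sum_eq_single c]
  · simp
  · intro b _ hb
    rw [Pi.smul_apply, Pi.single_eq_of_ne (Ne.symm hb), smul_zero]
  · intro hc
    exact absurd (Finset.mem_univ _) hc

/-- a product with a factor replaced is a combination of those with basis vectors -/
theorem sg_update_expand (p : Par β) (i : ι) (h : β i → ℝ) :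
    sg (update p i h) = ∑ b, h b • sg (update p i (Pi.single b 1)) := by
  funext m
  rw [sg_update, Finset.sum_apply]
  have h1 : ∀ b : β i, (h b • sg (update p i (Pi.single b 1))) m =
      (h b * (Pi.single b (1 : ℝ) : β i → ℝ) (m i)) * ∏ l ∈ Finset.univ.erase i, p l (m l) := by
    intro b
    rw [Pi.smul_apply, sg_update, smul_eq_mul, mul_assoc]
  rw [Finset.sum_congr rfl fun b _ => h1 b, ← Finset.sum_mul]
  congr 1
  rw [Finset.sum_eq_single (m i)]
  · simp
  · intro b _ hb
    rw [Pi.single_eq_of_ne (Ne.symm hb), mul_zero]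
  · intro hc
    exact absurd (Finset.mem_univ _) hc

end

section
variable {ι : Type} [Fintype ι] [DecidableEq ι] {β K : ι → Type} [∀ i, Fintype (β i)]
  [∀ i, DecidableEq (β i)] [∀ i, Fintype (K i)] [∀ i, DecidableEq (K i)]
  {A : Type} (f : ((i : ι) → K i) → A) (r : ℕ)

/-- names of the vectors available at a word -/
abbrev Gl (β K : ι → Type) (r : ℕ) : Type := (Σ i : ι, K i × β i) × Fin r

/-- the vectors available at the word `x` -/
def gl {R : Type} [CommRing R] (a : A → Fin r → (i : ι) → β i → R) (x : (i : ι) → K i) :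
    Gl β K r → ((i : ι) → β i) → R
  | (s, j) => sgR (update (a (f (update x s.1 s.2.1)) j) s.1 (Pi.single s.2.2 1))

omit [∀ i, Fintype (β i)] [∀ i, Fintype (K i)] [∀ i, DecidableEq (K i)] in
theorem map_gl {R S : Type} [CommRing R] [CommRing S] (φ : R →+* S)
    (a : A → Fin r → (i : ι) → β i → R) (x : (i : ι) → K i) (g : Gl β K r)
    (z : (i : ι) → β i) :
    φ (gl f r a x g z) = gl f r (fun c j i d => φ (a c j i d)) x g z := by
  obtain ⟨s, j⟩ := g
  show φ (sgR (update (a (f (update x s.1 s.2.1)) j) s.1 (Pi.single s.2.2 1)) z) =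
      sgR (update (fun i d => φ (a (f (update x s.1 s.2.1)) j i d)) s.1 (Pi.single s.2.2 1)) z
  rw [map_sgR, map_update]

/-- the square matrix given by coefficients `C` -/
def Ml {R : Type} [CommRing R]
    (C : ((i : ι) → K i) → ((i : ι) → β i) → Gl β K r → R)
    (a : A → Fin r → (i : ι) → β i → R) (x : (i : ι) → K i) :
    Matrix ((i : ι) → β i) ((i : ι) → β i) R :=
  Matrix.of fun z z' => ∑ g, C x z g * gl f r a x g z'

omit [∀ i, DecidableEq (K i)] in
/-- generic choice -/
theorem exists_generic_line [Fintype A] [DecidableEq A]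
    (hsp : ∀ x : (i : ι) → K i, ∃ q : A → Fin r → Par β, ∀ z : (i : ι) → β i,
      (sg (bs z) : Ten β) ∈ Submodule.span ℝ (range (gl f r q x))) :
    ∃ p : A → Fin r → Par β, ∀ (x : (i : ι) → K i) (z : (i : ι) → β i),
      (sg (bs z) : Ten β) ∈ Submodule.span ℝ (range (gl f r p x)) := by
  classical
  choose q hq using hsp
  have hC : ∀ (x : (i : ι) → K i) (z : (i : ι) → β i), ∃ c : Gl β K r → ℝ,
      ∑ g, c g • gl f r (q x) x g = sg (bs z) := fun x z =>
    (Submodule.mem_span_range_iff_exists_fun ℝ).1 (hq x z)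
  choose C hC using hC
  let σ : Type := A × Fin r × Sigma β
  let Xp : A → Fin r → (i : ι) → β i → MvPolynomial σ ℝ :=
    fun c j i a => MvPolynomial.X (c, j, ⟨i, a⟩)
  let Cp : ((i : ι) → K i) → ((i : ι) → β i) → Gl β K r → MvPolynomial σ ℝ :=
    fun x z g => MvPolynomial.C (C x z g)
  have hmap : ∀ (v : σ → ℝ) (x : (i : ι) → K i),
      MvPolynomial.eval v (Ml f r Cp Xp x).det =
        (Ml f r C (fun c j i a => v (c, j, ⟨i, a⟩)) x).det := by
    intro v x
    rw [RingHom.map_det]
    congr 1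
    ext z z'
    rw [RingHom.mapMatrix_apply, Matrix.map_apply]
    unfold Ml
    rw [Matrix.of_apply, Matrix.of_apply, map_sum]
    refine Finset.sum_congr rfl fun g _ => ?_
    rw [map_mul, map_gl]
    simp only [Xp, Cp, MvPolynomial.eval_X, MvPolynomial.eval_C]
  have hne : ∀ x, (Ml f r Cp Xp x).det ≠ 0 := by
    intro x h0
    have h1 := hmap (fun u => q x u.1 u.2.1 u.2.2.1 u.2.2.2) x
    rw [h0, map_zero] at h1
    have h2 : Ml f r C (fun c j i a => q x c j i a) x = 1 := by
      ext z z'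
      show ∑ g, C x z g * gl f r (q x) x g z' = _
      have h3 := congrFun (hC x z) z'
      rw [Finset.sum_apply, sg_bs_apply] at h3
      rw [Matrix.one_apply, ← h3]
      exact Finset.sum_congr rfl fun g _ => rfl
    have h3 : (Ml f r C (fun c j i a => (fun u : σ => q x u.1 u.2.1 u.2.2.1 u.2.2.2)
        (c, j, ⟨i, a⟩)) x) = 1 := h2
    rw [h3, Matrix.det_one] at h1
    exact zero_ne_one h1
  have hprod : (∏ x, (Ml f r Cp Xp x).det) ≠ 0 := Finset.prod_ne_zero_iff.2 fun x _ => hne x
  obtain ⟨v, hv⟩ : ∃ v : σ → ℝ, MvPolynomial.eval v (∏ x, (Ml f r Cp Xp x).det) ≠ 0 := by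
    by_contra hcon
    push Not at hcon
    exact hprod (MvPolynomial.funext fun v => by rw [hcon v, map_zero])
  rw [map_prod, Finset.prod_ne_zero_iff] at hv
  refine ⟨fun c j i a => v (c, j, ⟨i, a⟩), fun x z => ?_⟩
  set p : A → Fin r → Par β := fun c j i a => v (c, j, ⟨i, a⟩) with hp
  have hdet : (Ml f r C p x).det ≠ 0 := by
    rw [← hmap v x]
    exact hv x (Finset.mem_univ x)
  have hunit : IsUnit (Ml f r C p x).det := isUnit_iff_ne_zero.2 hdet
  have hinv : (Ml f r C p x)⁻¹ * Ml f r C p x = 1 := Matrix.nonsing_inv_mul _ hunit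
  have h4 : (sg (bs z) : Ten β) = ∑ z', (Ml f r C p x)⁻¹ z z' •
      ∑ g, C x z' g • gl f r p x g := by
    funext w
    have h5 := congrFun (congrFun hinv z) w
    rw [Matrix.mul_apply, Matrix.one_apply] at h5
    rw [sg_bs_apply, Finset.sum_apply, ← h5]
    refine Finset.sum_congr rfl fun z' _ => ?_
    rw [Pi.smul_apply, Finset.sum_apply, smul_eq_mul]
    rfl
  rw [h4]
  exact Submodule.sum_mem _ fun z' _ => Submodule.smul_mem _ _
    (Submodule.sum_mem _ fun g _ => Submodule.smul_mem _ _ (Submodule.subset_span ⟨_, rfl⟩))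

end

/-! ### The product format -/

section
variable {ι : Type} [Fintype ι] [DecidableEq ι] {β K : ι → Type} [∀ i, Fintype (β i)]
  [∀ i, DecidableEq (β i)] [∀ i, Fintype (K i)] [∀ i, DecidableEq (K i)]

/-- the product of `p` with the basis tensor of the word `x` -/
def cm (p : Par β) (x : (i : ι) → K i) : Par fun i => β i × K i :=
  fun i u => p i u.1 * if u.2 = x i then 1 else 0

/-- the linear map which puts a tensor into the fibre over `x` -/
def fib (x : (i : ι) → K i) : Ten β →ₗ[ℝ] Ten (fun i => β i × K i) where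
  toFun S y := S (fun i => (y i).1) * if (fun i => (y i).2) = x then 1 else 0
  map_add' S S' := by
    funext y
    simp only [Pi.add_apply]
    ring
  map_smul' c S := by
    funext y
    simp only [Pi.smul_apply, smul_eq_mul, RingHom.id_apply]
    ring

omit [DecidableEq ι] [∀ i, Fintype (β i)] [∀ i, DecidableEq (β i)] [∀ i, Fintype (K i)] in
theorem prod_ite_word (x w : (i : ι) → K i) :
    (∏ i, if w i = x i then (1 : ℝ) else 0) = if w = x then 1 else 0 := by
  split_ifs with h
  · subst h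
    simp
  · obtain ⟨i, hi⟩ := Function.ne_iff.1 h
    exact Finset.prod_eq_zero (Finset.mem_univ i) (if_neg hi)

omit [DecidableEq ι] [∀ i, Fintype (β i)] [∀ i, DecidableEq (β i)] [∀ i, Fintype (K i)] in
theorem sg_cm (p : Par β) (x : (i : ι) → K i) (y : (i : ι) → β i × K i) :
    sg (cm p x) y = sg p (fun i => (y i).1) * if (fun i => (y i).2) = x then 1 else 0 := by
  show (∏ i, (p i (y i).1 * if (y i).2 = x i then (1 : ℝ) else 0)) = _
  rw [Finset.prod_mul_distrib, prod_ite_word x fun i => (y i).2]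
  rfl

omit [DecidableEq ι] [∀ i, Fintype (β i)] [∀ i, DecidableEq (β i)] [∀ i, Fintype (K i)] in
theorem fib_sg (x : (i : ι) → K i) (p : Par β) :
    (fib x (sg p) : Ten fun i => β i × K i) = sg (cm p x) := by
  funext y
  rw [sg_cm]
  rfl

omit [Fintype ι] [∀ i, Fintype (β i)] [∀ i, DecidableEq (β i)] [∀ i, Fintype (K i)] in
theorem cm_update (p : Par β) (x : (i : ι) → K i) (i : ι) (h : β i → ℝ) (k : K i) :
    (cm (update p i h) (update x i k) : Par fun i => β i × K i) =
      update (cm p x) i (fun u => h u.1 * if u.2 = k then 1 else 0) := by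
  funext l
  by_cases hl : l = i
  · subst hl
    funext u
    simp only [cm, update_self]
  · funext u
    simp only [cm, update_of_ne hl]

omit [Fintype ι] [DecidableEq ι] [∀ i, Fintype (β i)] [∀ i, Fintype (K i)] in
theorem bs_cm (y : (i : ι) → β i × K i) :
    bs y = cm (bs fun i => (y i).1) (fun i => (y i).2) := by
  funext i u
  show (Pi.single (y i) (1 : ℝ) : β i × K i → ℝ) u =
    (Pi.single (y i).1 (1 : ℝ) : β i → ℝ) u.1 * if u.2 = (y i).2 then 1 else 0
  rw [Pi.single_apply, Pi.single_apply]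
  by_cases h1 : u = y i
  · subst h1
    simp
  · rw [if_neg h1]
    by_cases h2 : u.1 = (y i).1
    · rw [if_pos h2, if_neg (fun h3 => h1 (Prod.ext h2 h3)), mul_zero]
    · rw [if_neg h2, zero_mul]

omit [∀ i, Fintype (β i)] [∀ i, Fintype (K i)] in
/-- the span condition in the product format -/
theorem span_fib {A : Type} (f : ((i : ι) → K i) → A) {r : ℕ} (p : A → Fin r → Par β)
    (hp : ∀ (x : (i : ι) → K i) (z : (i : ι) → β i),
      sg (bs z) ∈ Submodule.span ℝ (range (gl f r p x)))
    (y : (i : ι) → β i × K i) :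
    sg (bs y) ∈ Submodule.span ℝ {S : Ten (fun i => β i × K i) |
      ∃ (l : ((i : ι) → K i) × Fin r) (i : ι) (h : β i × K i → ℝ),
        S = sg (update (cm (p (f l.1) l.2) l.1) i h)} := by
  set x : (i : ι) → K i := fun i => (y i).2 with hx
  set z : (i : ι) → β i := fun i => (y i).1 with hz
  have h1 : sg (bs y) = fib x (sg (bs z)) := by
    rw [fib_sg, bs_cm]
  rw [h1]
  have h2 := Submodule.mem_map_of_mem (f := fib x) (hp x z)
  rw [Submodule.map_span] at h2
  refine Submodule.span_mono ?_ h2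
  rintro S ⟨S', ⟨g, rfl⟩, rfl⟩
  obtain ⟨⟨i, k, b⟩, j⟩ := g
  refine ⟨(update x i k, j), i, fun u => (Pi.single b (1 : ℝ) : β i → ℝ) u.1 *
    if u.2 = x i then 1 else 0, ?_⟩
  rw [← cm_update, update_idem, update_eq_self, ← fib_sg]
  rfl

omit [∀ i, Fintype (β i)] [∀ i, DecidableEq (β i)] in
/-- the value of the tensor given by labels -/
theorem sum_fib {A : Type} (f : ((i : ι) → K i) → A) {r : ℕ}
    (p : A → Fin r → Par β) (y : (i : ι) → β i × K i) :
    (∑ l : ((i : ι) → K i) × Fin r, sg (cm (p (f l.1) l.2) l.1) :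
      Ten (fun i => β i × K i)) y =
      ∑ j, sg (p (f fun i => (y i).2) j) fun i => (y i).1 := by
  rw [Finset.sum_apply, Fintype.sum_prod_type,
    Finset.sum_eq_single (fun i => (y i).2)]
  · refine Finset.sum_congr rfl fun j _ => ?_
    rw [sg_cm, if_pos rfl, mul_one]
  · intro x _ hx
    refine Finset.sum_eq_zero fun j _ => ?_
    rw [sg_cm, if_neg (Ne.symm hx), mul_zero]
  · intro h
    exact absurd (Finset.mem_univ _) h

omit [DecidableEq ι] [∀ i, Fintype (β i)] [∀ i, DecidableEq (β i)] [∀ i, Fintype (K i)]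
  [∀ i, DecidableEq (K i)] in
/-- functions of a label are short sums of products -/
theorem fib_mem_Sums {A : Type} [AddCommGroup A] [Fintype A]
    (h2 : ∀ g : A, g + g = 0) (φ : (i : ι) → K i → A) [Nonempty ι] {ρ : ℕ}
    (hρ : ∀ S : Ten β, S ∈ Sums β ρ) (G : ((i : ι) → β i) → A → ℝ) :
    (fun y : (i : ι) → β i × K i =>
      G (fun i => (y i).1) (∑ i, φ i (y i).2)) ∈
      Sums (fun i => β i × K i) (Fintype.card A * ρ) := by
  classical
  have hre : ∀ (ψ : AddChar A ℂ) (g : A), ψ g = ((ψ g).re : ℂ) := by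
    intro ψ g
    have h1 : ψ g * ψ g = 1 := by
      rw [← AddChar.map_add_eq_mul, h2, AddChar.map_zero_eq_one]
    rcases mul_self_eq_one_iff.1 h1 with h | h <;> simp [h]
  have hmul : ∀ (ψ : AddChar A ℂ) (g h : A), (ψ (g + h)).re = (ψ g).re * (ψ h).re := by
    intro ψ g h
    rw [AddChar.map_add_eq_mul, hre ψ g, hre ψ h]
    simp
  let Sψ : AddChar A ℂ → Ten β := fun ψ z => ∑ g : A, (Fintype.card A : ℝ)⁻¹ * (ψ g).re * G z g
  have hw : ∀ ψ : AddChar A ℂ, ∃ w : Fin ρ → Par β, Sψ ψ = ∑ t, sg (w t) := fun ψ => hρ (Sψ ψ)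
  choose w hw using hw
  let κ := AddChar A ℂ × Fin ρ
  have hc : Fintype.card κ = Fintype.card A * ρ := by
    rw [Fintype.card_prod, AddChar.card_eq, Fintype.card_fin]
  let v : κ → Par (fun i => β i × K i) := fun k i u => w k.1 k.2 i u.1 * (k.1 (φ i u.2)).re
  have hS := sum_smul_mem_Sums (α := fun i => β i × K i) (fun _ : κ => (1 : ℝ)) v
  rw [hc] at hS
  have heq : (fun y : (i : ι) → β i × K i =>
      G (fun i => (y i).1) (∑ i, φ i (y i).2)) = ∑ l, (1 : ℝ) • sg (v l) := by
    funext y
    set z : (i : ι) → β i := fun i => (y i).1 with hz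
    set a : A := ∑ i, φ i (y i).2 with ha
    rw [Finset.sum_apply, Fintype.sum_prod_type]
    have h3 : ∀ ψ : AddChar A ℂ, ∑ t, ((1 : ℝ) • sg (v (ψ, t))) y =
        ∑ g : A, (Fintype.card A : ℝ)⁻¹ * (ψ (a + g)).re * G z g := by
      intro ψ
      have h4 : ∀ t, ((1 : ℝ) • sg (v (ψ, t))) y = sg (w ψ t) z * (ψ a).re := by
        intro t
        rw [one_smul]
        show (∏ i, (w ψ t i (y i).1 * (ψ (φ i (y i).2)).re)) = _
        rw [Finset.prod_mul_distrib]
        have h5 : (∏ i, ψ (φ i (y i).2)) =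
            ((∏ i, (ψ (φ i (y i).2)).re : ℝ) : ℂ) := by
          rw [Complex.ofReal_prod]
          exact Finset.prod_congr rfl fun i _ => hre ψ _
        have h6 : (∏ i, (ψ (φ i (y i).2)).re) = (ψ a).re := by
          rw [ha, char_sum, h5, Complex.ofReal_re]
        rw [h6]
        rfl
      rw [Finset.sum_congr rfl fun t _ => h4 t, ← Finset.sum_mul]
      have h7 : ∑ t, sg (w ψ t) z = Sψ ψ z := by
        rw [hw ψ, Finset.sum_apply]
      rw [h7]
      show (∑ g : A, (Fintype.card A : ℝ)⁻¹ * (ψ g).re * G z g) * (ψ a).re = _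
      rw [Finset.sum_mul]
      refine Finset.sum_congr rfl fun g _ => ?_
      rw [hmul]
      ring
    rw [Finset.sum_congr rfl fun ψ _ => h3 ψ, Finset.sum_comm]
    have h6 : ∀ g : A, ∑ ψ : AddChar A ℂ, (Fintype.card A : ℝ)⁻¹ * (ψ (a + g)).re * G z g =
        (if a + g = 0 then 1 else 0) * G z g := by
      intro g
      rw [delta_eq, Finset.sum_mul]
    rw [Finset.sum_congr rfl fun g _ => h6 g, Finset.sum_eq_single a]
    · rw [h2, if_pos rfl, one_mul]
    · intro g _ hg
      rw [if_neg, zero_mul]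
      intro h7
      apply hg
      have h8 : a + g = a + a := by rw [h7, h2]
      exact add_left_cancel h8
    · intro h
      exact absurd (Finset.mem_univ _) h
  rw [heq]
  exact hS

/-- The structural theorem: labels inside the factors. -/
theorem sub_upper [Nonempty ι] {A : Type} [AddCommGroup A] [Fintype A] (h2 : ∀ g : A, g + g = 0)
    (φ : (i : ι) → K i → A) {r ρ : ℕ} (hρ : ∀ S : Ten β, S ∈ Sums β ρ)
    (hsp : ∀ x : (i : ι) → K i, ∃ q : A → Fin r → Par β, ∀ z : (i : ι) → β i,
      sg (bs z) ∈ Submodule.span ℝ {S : Ten β | ∃ (i : ι) (k : K i) (j : Fin r) (h : β i → ℝ),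
        S = sg (update (q (∑ l, φ l (update x i k l)) j) i h)})
    (T : Ten fun i => β i × K i) :
    T ∈ Sums (fun i => β i × K i) (r * Fintype.card ((i : ι) → K i) + Fintype.card A * ρ) := by
  classical
  set f : ((i : ι) → K i) → A := fun x => ∑ i, φ i (x i) with hf
  obtain ⟨p, hp⟩ := exists_generic_line f r (fun x => by
    obtain ⟨q, hq⟩ := hsp x
    refine ⟨q, fun z => ?_⟩
    refine Submodule.span_le.2 ?_ (hq z)
    rintro S ⟨i, k, j, h, rfl⟩
    rw [SetLike.mem_coe, sg_update_expand]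
    refine Submodule.sum_mem _ fun b _ => Submodule.smul_mem _ _ (Submodule.subset_span ?_)
    exact ⟨(⟨i, k, b⟩, j), rfl⟩)
  have hspan := span_fib f p hp
  have hT0 : (∑ l : ((i : ι) → K i) × Fin r,
      sg (cm (p (f l.1) l.2) l.1) : Ten (fun i => β i × K i)) ∈
      Sums (fun i => β i × K i) (Fintype.card A * ρ) := by
    have h3 : (∑ l : ((i : ι) → K i) × Fin r,
        sg (cm (p (f l.1) l.2) l.1) : Ten (fun i => β i × K i)) =
        fun y : (i : ι) → β i × K i =>
        (fun z a => ∑ j, sg (p a j) z) (fun i => (y i).1) (∑ i, φ i (y i).2) := by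
      funext y
      rw [sum_fib]
    rw [h3]
    exact fib_mem_Sums h2 φ hρ fun z a => ∑ j, sg (p a j) z
  have h4 := all_mem_gen (fun l : ((i : ι) → K i) × Fin r =>
    cm (p (f l.1) l.2) l.1) hspan hT0 T
  rwa [Fintype.card_prod, Fintype.card_fin, mul_comm _ r] at h4

/-- The structural theorem with a spanning family of lines and good neighbours. -/
theorem sub_upper_lines [Nonempty ι] {A : Type} [AddCommGroup A] [Fintype A]
    (h2 : ∀ g : A, g + g = 0) (φ : (i : ι) → K i → A) {r ρ m g : ℕ}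
    (hρ : ∀ S : Ten β, S ∈ Sums β ρ)
    (L : ι → Fin m → Par β)
    (hL : ∀ z : (i : ι) → β i, sg (bs z) ∈ Submodule.span ℝ {S : Ten β |
      ∃ (i : ι) (t : Fin m) (h : β i → ℝ), S = sg (update (L i t) i h)})
    (N : ∀ _ : (i : ι) → K i, (i : ι) → Fin g → K i)
    (hN : ∀ x : (i : ι) → K i,
      Injective fun s : (Σ _ : ι, Fin g) => ∑ l, φ l (update x s.1 (N x s.1 s.2) l))
    (hm : m ≤ g * r) (T : Ten fun i => β i × K i) :
    T ∈ Sums (fun i => β i × K i) (r * Fintype.card ((i : ι) → K i) + Fintype.card A * ρ) := by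
  classical
  refine sub_upper h2 φ hρ (fun x => ?_) T
  have hc : Fintype.card (Fin m) ≤ Fintype.card (Fin g × Fin r) := by
    rw [Fintype.card_prod, Fintype.card_fin, Fintype.card_fin, Fintype.card_fin]
    exact hm
  obtain ⟨e⟩ := Function.Embedding.nonempty_of_card_le hc
  let lab : ι → Fin g → A := fun i s => ∑ l, φ l (update x i (N x i s) l)
  have hlab : ∀ i s i' s', lab i s = lab i' s' → i = i' ∧ s = s' := by
    intro i s i' s' h
    have h1 := @hN x ⟨i, s⟩ ⟨i', s'⟩ h
    simpa using h1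
  let q : A → Fin r → Par β := fun c j =>
    if h : ∃ u : ι × Fin m, lab u.1 (e u.2).1 = c ∧ (e u.2).2 = j then
      L h.choose.1 h.choose.2 else fun _ _ => 0
  have hq : ∀ (i : ι) (t : Fin m), q (lab i (e t).1) (e t).2 = L i t := by
    intro i t
    have h : ∃ u : ι × Fin m, lab u.1 (e u.2).1 = lab i (e t).1 ∧ (e u.2).2 = (e t).2 :=
      ⟨(i, t), rfl, rfl⟩
    have h1 : q (lab i (e t).1) (e t).2 = L h.choose.1 h.choose.2 := dif_pos h
    obtain ⟨h3, h4⟩ := hlab _ _ _ _ h.choose_spec.1
    have h5 : h.choose.2 = t := e.injective (Prod.ext h4 h.choose_spec.2)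
    rw [h1, h3, h5]
  refine ⟨q, fun z => ?_⟩
  refine Submodule.span_mono ?_ (hL z)
  rintro S ⟨i, t, h, rfl⟩
  refine ⟨i, N x i (e t).1, (e t).2, h, ?_⟩
  have h6 : q (∑ l, φ l (update x i (N x i (e t).1) l)) (e t).2 = L i t := hq i t
  rw [h6]

end

end Pool.Agent.H31.TR
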