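import Pool.Agent.H19.TR.Lines
import Pool.Agent.H31.TR.Sub

/-!
MP_b12e0e_ag (helper31): spanning families of lines of product tensors for every order `n ≥ 3`:
blow up, one more factor, induction.
-/

set_option autoImplicit false

open Set Function Module

namespace Pool.Agent.H31.TR

open Pool.Agent.H19.TR Pool.Agent.H93.TR

section
variable {ι : Type} [Fintype ι] [DecidableEq ι] {E : ι → Type} [∀ i, Fintype (E i)]
  [∀ i, DecidableEq (E i)] {Λ : ι → Type}

omit [∀ i, Fintype (E i)] in
/-- more names of lines -/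
theorem lines_names {Λ' : ι → Type} (e : ∀ i, Λ' i → Λ i) (he : ∀ i, Surjective (e i))
    (hL : Lines E Λ) : Lines E Λ' := by
  obtain ⟨q, hq⟩ := hL
  refine ⟨fun i j => q i (e i j), fun z => Submodule.span_mono ?_ (hq z)⟩
  rintro S ⟨i, j, h, rfl⟩
  obtain ⟨j', rfl⟩ := he i j
  exact ⟨i, j', h, rfl⟩

/-- transport of a tensor along bijections of the factors -/
def tp {E' : ι → Type} (e : ∀ i, E' i → E i) : Ten E →ₗ[ℝ] Ten E' where
  toFun S y := S fun i => e i (y i)
  map_add' _ _ := rfl
  map_smul' _ _ := rfl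

omit [∀ i, Fintype (E i)] in
/-- transport along bijections of the factors -/
theorem lines_factors {E' : ι → Type} [∀ i, DecidableEq (E' i)] (e : ∀ i, E' i ≃ E i)
    (hL : Lines E Λ) : Lines E' Λ := by
  obtain ⟨q, hq⟩ := hL
  refine ⟨fun i j l u => q i j l (e l u), fun z => ?_⟩
  have h1 : sg (bs z) = tp (fun i => e i) (sg (bs fun i => e i (z i))) := by
    funext y
    show _ = sg (bs fun i => e i (z i)) (fun i => e i (y i))
    rw [sg_bs_apply, sg_bs_apply]
    congr 1
    rw [eq_iff_iff]
    constructor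
    · rintro rfl
      rfl
    · intro h
      funext i
      exact (e i).injective (congrFun h i)
  rw [h1]
  have h2 := Submodule.mem_map_of_mem (f := tp fun i => e i) (hq fun i => e i (z i))
  rw [Submodule.map_span] at h2
  refine Submodule.span_mono ?_ h2
  rintro S ⟨S', ⟨i, j, h, rfl⟩, rfl⟩
  refine ⟨i, j, fun u => h (e i u), ?_⟩
  funext y
  show sg (update (q i j) i h) (fun i => e i (y i)) = _
  rw [sg_update, sg_update]

omit [∀ i, Fintype (E i)] in
/-- the blow-up -/
theorem lines_blow {S : ι → Type} [∀ i, DecidableEq (S i)] (hL : Lines E Λ) :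
    Lines (fun i => E i × S i) (fun i => Λ i × ((i' : {i' : ι // i' ≠ i}) → S i'.1)) := by
  obtain ⟨q, hq⟩ := hL
  refine ⟨fun i jt l u => if hl : l = i then 0 else
    q i jt.1 l u.1 * if u.2 = jt.2 ⟨l, hl⟩ then 1 else 0, fun y => ?_⟩
  set x : (i : ι) → S i := fun i => (y i).2 with hx
  set z : (i : ι) → E i := fun i => (y i).1 with hz
  have h1 : sg (bs y) = fib x (sg (bs z)) := by
    rw [fib_sg, bs_cm]
  rw [h1]
  have h2 := Submodule.mem_map_of_mem (f := fib x) (hq z)
  rw [Submodule.map_span] at h2
  refine Submodule.span_mono ?_ h2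
  rintro S' ⟨S'', ⟨i, j, h, rfl⟩, rfl⟩
  refine ⟨i, (j, fun l => x l.1), fun u => h u.1 * if u.2 = x i then 1 else 0, ?_⟩
  rw [fib_sg]
  congr 1
  funext l u
  by_cases hl : l = i
  · subst hl
    simp only [cm, update_self]
  · simp only [cm, update_of_ne hl]
    rw [dif_neg hl]

end

/-! ### One more factor -/

section
variable {ι : Type} [Fintype ι] [DecidableEq ι] {F : Type} [Fintype F] [DecidableEq F]

/-- one more factor -/
def ex (w : Par fun _ : ι => F) (h : F → ℝ) : Par fun _ : Option ι => F
  | none => h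
  | some i => w i

omit [DecidableEq ι] [Fintype F] [DecidableEq F] in
theorem sg_ex (w : Par fun _ : ι => F) (h : F → ℝ) (y : Option ι → F) :
    sg (ex w h) y = h (y none) * sg w fun i => y (some i) := by
  show (∏ o, ex w h o (y o)) = _
  rw [Fintype.prod_option]
  rfl

/-- the slice `t` of the new factor -/
def sl (t : F) : Ten (fun _ : ι => F) →ₗ[ℝ] Ten (fun _ : Option ι => F) where
  toFun S y := (Pi.single t (1 : ℝ) : F → ℝ) (y none) * S fun i => y (some i)
  map_add' S S' := by
    funext y
    simp only [Pi.add_apply]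
    ring
  map_smul' c S := by
    funext y
    simp only [Pi.smul_apply, smul_eq_mul, RingHom.id_apply]
    ring

omit [DecidableEq ι] [Fintype F] in
theorem sl_sg (t : F) (w : Par fun _ : ι => F) :
    sl t (sg w) = sg (ex w (Pi.single t 1)) := by
  funext y
  rw [sg_ex]
  rfl

omit [Fintype ι] [Fintype F] [DecidableEq F] in
theorem update_ex_some (w : Par fun _ : ι => F) (h : F → ℝ) (i : ι) (h' : F → ℝ) :
    update (ex w h) (some i) h' = ex (update w i h') h := by
  funext o
  rcases o with _ | l
  · rw [update_of_ne (by simp)]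
    rfl
  · by_cases hl : l = i
    · subst hl
      rw [update_self]
      exact (update_self (β := fun _ : ι => F → ℝ) l h' w).symm
    · rw [update_of_ne (fun h2 => hl (Option.some_injective _ h2))]
      exact (update_of_ne (β := fun _ : ι => F → ℝ) hl h' w).symm

omit [Fintype ι] [Fintype F] [DecidableEq F] in
theorem update_ex_none (w : Par fun _ : ι => F) (h h' : F → ℝ) :
    update (ex w h) none h' = ex w h' := by
  funext o
  rcases o with _ | l
  · rw [update_self]
    rfl
  · rw [update_of_ne (by simp)]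
    rfl

omit [Fintype ι] [DecidableEq ι] [Fintype F] in
theorem bs_ex (z : Option ι → F) :
    bs z = ex (bs fun i => z (some i)) (Pi.single (z none) 1) := by
  funext o
  rcases o with _ | l <;> rfl

/-- the names of the lines after adding a factor -/
def NL (ι Λ₁ Λ₂ F : Type) : Option ι → Type
  | none => ι × Λ₁ × F
  | some _ => Λ₂ × F

/-- one more factor: the lines with names in `Λ₁` are replaced by their product vectors -/
theorem lines_option {Λ₁ Λ₂ : Type}
    (hL : Lines (fun _ : ι => F) (fun _ => Λ₁ ⊕ Λ₂)) :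
    Lines (fun _ : Option ι => F) (NL ι Λ₁ Λ₂ F) := by
  obtain ⟨q, hq⟩ := hL
  let q' : (o : Option ι) → NL ι Λ₁ Λ₂ F o →
      Par (fun _ : Option ι => F) := fun o => match o with
    | none => fun s => ex (update (q s.1 (Sum.inl s.2.1)) s.1 (Pi.single s.2.2 1)) 0
    | some i => fun s => ex (q i (Sum.inr s.1)) (Pi.single s.2 1)
  refine ⟨q', fun z => ?_⟩
  have h1 : sg (bs z) = sl (z none) (sg (bs fun i => z (some i))) := by
    rw [sl_sg, bs_ex]
  rw [h1]
  have h2 := Submodule.mem_map_of_mem (f := sl (z none)) (hq fun i => z (some i))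
  rw [Submodule.map_span] at h2
  refine Submodule.span_le.2 ?_ h2
  rintro S ⟨S', ⟨i, j, h, rfl⟩, rfl⟩
  rw [SetLike.mem_coe]
  rcases j with j | j
  · rw [sg_update_expand, map_sum]
    refine Submodule.sum_mem _ fun b _ => ?_
    rw [map_smul]
    refine Submodule.smul_mem _ _ (Submodule.subset_span ?_)
    refine ⟨none, (i, j, b), Pi.single (z none) 1, ?_⟩
    rw [sl_sg]
    exact congrArg sg (update_ex_none _ _ _).symm
  · refine Submodule.subset_span ⟨some i, (j, z none), h, ?_⟩
    rw [sl_sg]
    exact congrArg sg (update_ex_some _ _ _ _).symm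

omit [Fintype F] in
/-- transport along a bijection of the positions -/
theorem lines_index {ι' : Type} [Fintype ι'] [DecidableEq ι'] (e : ι' ≃ ι) {Λ : Type}
    (hL : Lines (fun _ : ι => F) (fun _ => Λ)) : Lines (fun _ : ι' => F) (fun _ => Λ) := by
  obtain ⟨q, hq⟩ := hL
  let tq : Ten (fun _ : ι => F) →ₗ[ℝ] Ten (fun _ : ι' => F) :=
    { toFun := fun S y => S fun i => y (e.symm i)
      map_add' := fun _ _ => rfl
      map_smul' := fun _ _ => rfl }
  have htq : ∀ w : Par fun _ : ι => F, tq (sg w) = sg fun l => w (e l) := by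
    intro w
    funext y
    show (∏ i, w i (y (e.symm i))) = ∏ l, w (e l) (y l)
    rw [← e.prod_comp]
    exact Finset.prod_congr rfl fun l _ => by rw [e.symm_apply_apply]
  refine ⟨fun i j l => q (e i) j (e l), fun z => ?_⟩
  have h1 : sg (bs z) = tq (sg (bs fun i => z (e.symm i))) := by
    rw [htq]
    congr 1
    funext l
    show Pi.single (z l) 1 = Pi.single (z (e.symm (e l))) 1
    rw [e.symm_apply_apply]
  rw [h1]
  have h2 := Submodule.mem_map_of_mem (f := tq) (hq fun i => z (e.symm i))
  rw [Submodule.map_span] at h2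
  refine Submodule.span_mono ?_ h2
  rintro S ⟨S', ⟨i, j, h, rfl⟩, rfl⟩
  refine ⟨e.symm i, j, h, ?_⟩
  rw [htq]
  congr 1
  funext l
  show update (q i j) i h (e l) = update (fun l => q (e (e.symm i)) j (e l)) (e.symm i) h l
  rw [e.apply_symm_apply]
  by_cases hl : l = e.symm i
  · subst hl
    rw [update_self, e.apply_symm_apply, update_self]
  · rw [update_of_ne hl, update_of_ne (fun h3 => hl (by rw [← h3, e.symm_apply_apply]))]

end

/-! ### The induction -/

theorem exists_surj_fin {Λ : Type} [Fintype Λ] {N : ℕ} (h : Fintype.card Λ = N) :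
    ∃ f : Fin N → Λ, Surjective f :=
  ⟨(Fintype.equivFinOfCardEq h).symm, Equiv.surjective _⟩

theorem lines_blow_fin {n a m s : ℕ}
    (hL : Lines (fun _ : Fin n => Fin a) (fun _ => Fin m)) :
    Lines (fun _ : Fin n => Fin (a * s)) (fun _ => Fin (m * s ^ (n - 1))) := by
  have h1 := lines_blow (S := fun _ : Fin n => Fin s) hL
  have hc : ∀ i : Fin n, ∃ f : Fin (m * s ^ (n - 1)) →
      Fin m × ((i' : {i' : Fin n // i' ≠ i}) → Fin s), Surjective f := by
    intro i
    refine exists_surj_fin ?_
    rw [Fintype.card_prod, Fintype.card_pi, Finset.prod_const, Fintype.card_fin,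
      Fintype.card_fin, Finset.card_univ, Fintype.card_subtype_compl,
      Fintype.card_subtype_eq, Fintype.card_fin]
  choose f hf using hc
  have h2 : Lines (fun _ : Fin n => Fin a × Fin s) (fun _ => Fin (m * s ^ (n - 1))) :=
    lines_names f hf h1
  exact lines_factors (fun _ => finProdFinEquiv.symm) h2

theorem lines_succ_fin {n a m' : ℕ}
    (hL : Lines (fun _ : Fin n => Fin a) (fun _ => Fin ((n + 1) * m'))) :
    Lines (fun _ : Fin (n + 1) => Fin a) (fun _ => Fin (n * m' * a)) := by
  have h1 : Lines (fun _ : Fin n => Fin a) (fun _ => Fin m' ⊕ Fin (n * m')) := by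
    have hc : ∀ _ : Fin n, ∃ f : Fin m' ⊕ Fin (n * m') → Fin ((n + 1) * m'), Surjective f := by
      intro _
      refine ⟨Fintype.equivFinOfCardEq (α := Fin m' ⊕ Fin (n * m')) ?_, Equiv.surjective _⟩
      rw [Fintype.card_sum, Fintype.card_fin, Fintype.card_fin]
      ring
    choose f hf using hc
    exact lines_names f hf hL
  have h2 := lines_option h1
  have hc : ∀ o : Option (Fin n), ∃ f : Fin (n * m' * a) →
      NL (Fin n) (Fin m') (Fin (n * m')) (Fin a) o, Surjective f := by
    rintro (_ | i)
    · refine exists_surj_fin (Λ := Fin n × Fin m' × Fin a) ?_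
      rw [Fintype.card_prod, Fintype.card_prod, Fintype.card_fin, Fintype.card_fin,
        Fintype.card_fin]
      ring
    · refine exists_surj_fin (Λ := Fin (n * m') × Fin a) ?_
      rw [Fintype.card_prod, Fintype.card_fin, Fintype.card_fin]
  choose f hf using hc
  have h3 : Lines (fun _ : Option (Fin n) => Fin a) (fun _ => Fin (n * m' * a)) :=
    lines_names f hf h2
  exact lines_index (finSuccEquiv n) h3

/-- spanning families of lines for every order `n ≥ 3`, from the one for order three -/
theorem lines_all_of (h3 : Lines (fun _ : Fin 3 => Fin 3) (fun _ => Fin 3)) (n : ℕ)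
    (hn : 3 ≤ n) : ∃ a m : ℕ, 0 < a ∧ n * m = a ^ (n - 1) ∧
      ∀ s, 1 ≤ s → Lines (fun _ : Fin n => Fin (a * s)) (fun _ => Fin (m * s ^ (n - 1))) := by
  have key : ∃ a m : ℕ, 0 < a ∧ n * m = a ^ (n - 1) ∧
      Lines (fun _ : Fin n => Fin a) (fun _ => Fin m) := by
    induction n, hn using Nat.le_induction with
    | base => exact ⟨3, 3, by norm_num, by norm_num, h3⟩
    | succ n hn ih =>
      obtain ⟨a, m, ha, hm, hL⟩ := ih
      have h1 := lines_blow_fin (s := n + 1) hL
      have h2 : m * (n + 1) ^ (n - 1) = (n + 1) * (m * (n + 1) ^ (n - 2)) := by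
        have : n - 1 = (n - 2) + 1 := by omega
        rw [this, pow_succ]
        ring
      rw [h2] at h1
      refine ⟨a * (n + 1), n * (m * (n + 1) ^ (n - 2)) * (a * (n + 1)), by positivity, ?_,
        lines_succ_fin h1⟩
      have h4 : n + 1 - 1 = (n - 2) + 2 := by omega
      have h5 : n - 1 = (n - 2) + 1 := by omega
      rw [h5] at hm
      rw [h4]
      calc (n + 1) * (n * (m * (n + 1) ^ (n - 2)) * (a * (n + 1)))
          = (n * m) * a * ((n + 1) ^ (n - 2) * (n + 1) ^ 2) := by ring
        _ = (a * (n + 1)) ^ (n - 2 + 2) := by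
            rw [hm, mul_pow, pow_add (n + 1), pow_add a (n - 2) 2, pow_succ]
            ring
  obtain ⟨a, m, ha, hm, hL⟩ := key
  exact ⟨a, m, ha, hm, fun s _ => lines_blow_fin hL⟩

end Pool.Agent.H31.TR
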