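import Mathlib

/-!
MP_b12e0e_ag (helper31): the numbers for the construction with two large factors.
-/

set_option autoImplicit false

namespace Pool.Agent.H31.TR

theorem est_two (ε : ℝ) (hε : 0 < ε) : ∃ K : ℕ, ∀ a b g M E : ℕ, 1 ≤ a → a ≤ b → K ≤ M →
    K ≤ E → M + 1 ≤ b → K * g ≤ a + b → ∃ ξ η : ℕ, M + 1 ≤ ξ + η ∧ ξ ≤ b ∧ b * η ≤ a * ξ ∧
      ((a * ξ * (E + 1) : ℕ) : ℝ) ≤ (1 + ε) *
        (((a : ℝ) * b * (M * E)) / (1 + (((a : ℝ) - 1) + ((b : ℝ) - 1)) + g)) := by
  set δ : ℝ := min ε 1 with hδ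
  have hδ0 : 0 < δ := lt_min hε one_pos
  have hδ1 : δ ≤ 1 := min_le_right _ _
  have hδε : δ ≤ ε := min_le_left _ _
  obtain ⟨K, hK⟩ := exists_nat_ge (21 / δ)
  have hK0 : (0 : ℝ) < K := lt_of_lt_of_le (by positivity) hK
  refine ⟨K, fun a b g M E ha hab hM hE hMb hg => ?_⟩
  set x : ℝ := 3 / K with hx
  have hx0 : 0 < x := by positivity
  have hxK : x * K = 3 := div_mul_cancel₀ _ hK0.ne'
  have hxδ : x ≤ δ / 7 := by
    rw [hx, div_le_iff₀ hK0]
    rw [div_le_iff₀ hδ0] at hK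
    linarith
  have haR : (1 : ℝ) ≤ a := by exact_mod_cast ha
  have habR : (a : ℝ) ≤ b := by exact_mod_cast hab
  have hMR : (K : ℝ) ≤ M := by exact_mod_cast hM
  have hER : (K : ℝ) ≤ E := by exact_mod_cast hE
  have hgR : (K : ℝ) * g ≤ a + b := by exact_mod_cast hg
  have hg0 : (0 : ℝ) ≤ g := Nat.cast_nonneg _
  have hM0 : (0 : ℝ) < M := lt_of_lt_of_le hK0 hMR
  have hE0 : (0 : ℝ) < E := lt_of_lt_of_le hK0 hER
  have ha0 : (0 : ℝ) < a := by linarith
  have hb0 : (0 : ℝ) < b := by linarith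
  have hs0 : (0 : ℝ) < a + b := by linarith
  set y : ℝ := ((M : ℝ) + 1) * b / (a + b) with hy
  have hy0 : 0 ≤ y := by positivity
  have hys : y * (a + b) = (M + 1) * b := div_mul_cancel₀ _ hs0.ne'
  set ξ : ℕ := ⌈y⌉₊ with hξ
  have hξ1 : y ≤ ξ := Nat.le_ceil y
  have hξ2 : (ξ : ℝ) < y + 1 := Nat.ceil_lt_add_one hy0
  have hξM : ξ ≤ M + 1 := by
    rw [hξ, Nat.ceil_le, hy, div_le_iff₀ hs0]
    push_cast
    have : (0 : ℝ) ≤ ((M : ℝ) + 1) * a := by positivity
    linarith
  obtain ⟨η, hη⟩ := Nat.exists_eq_add_of_le hξM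
  have hηR : (M : ℝ) + 1 = ξ + η := by exact_mod_cast hη
  refine ⟨ξ, η, hη.le, hξM.trans hMb, ?_, ?_⟩
  · have h1 : (b : ℝ) * η ≤ a * ξ := by
      have h2 : (η : ℝ) = M + 1 - ξ := by linarith
      have h3 := mul_le_mul_of_nonneg_right hξ1 hs0.le
      rw [h2]
      linarith
    exact_mod_cast h1
  · set S : ℝ := 1 + (((a : ℝ) - 1) + ((b : ℝ) - 1)) + g with hS
    have hS0 : 0 < S := by linarith
    have hS1 : S ≤ (1 + x) * (a + b) := by
      have h1 : (g : ℝ) ≤ x * (a + b) := by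
        have h2 : 3 * (g : ℝ) ≤ x * (a + b) := by
          have h3 := mul_le_mul_of_nonneg_left hgR hx0.le
          have h4 : x * (K * (g : ℝ)) = 3 * g := by rw [← mul_assoc, hxK]
          linarith
        linarith
      linarith
    have h1 : (a : ℝ) * ξ ≤ (M + 3) * (a * b / (a + b)) := by
      have h2 : (a : ℝ) * ξ ≤ a * (y + 1) := mul_le_mul_of_nonneg_left hξ2.le ha0.le
      have h3 : (a : ℝ) * y = (M + 1) * (a * b / (a + b)) := by
        rw [hy]
        ring
      have h4 : (a : ℝ) ≤ 2 * (a * b / (a + b)) := by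
        rw [← mul_div_assoc, le_div_iff₀ hs0]
        have h5 : (a : ℝ) * (a + b) ≤ a * (b + b) :=
          mul_le_mul_of_nonneg_left (by linarith) ha0.le
        linarith
      linarith
    have h2 : (M : ℝ) + 3 ≤ (1 + x) * M := by
      have h3 := mul_le_mul_of_nonneg_left hMR hx0.le
      linarith
    have h3 : (E : ℝ) + 1 ≤ (1 + x) * E := by
      have h4 := mul_le_mul_of_nonneg_left hER hx0.le
      linarith
    have hq0 : (0 : ℝ) < a * b / (a + b) := by positivity
    have h4 : a * b / (a + b) ≤ (1 + x) * (a * b / S) := by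
      rw [← mul_div_assoc, div_le_div_iff₀ hs0 hS0]
      have h5 := mul_le_mul_of_nonneg_left hS1 (by positivity : (0 : ℝ) ≤ a * b)
      linarith
    have hp0 : (0 : ℝ) < a * b / S := by positivity
    push_cast
    calc (a : ℝ) * ξ * (E + 1) ≤ ((1 + x) * M * (a * b / (a + b))) * ((1 + x) * E) := by
          refine mul_le_mul ?_ h3 (by positivity) (by positivity)
          exact h1.trans (mul_le_mul_of_nonneg_right h2 hq0.le)
      _ = (1 + x) ^ 2 * (M * E) * (a * b / (a + b)) := by ring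
      _ ≤ (1 + x) ^ 2 * (M * E) * ((1 + x) * (a * b / S)) :=
          mul_le_mul_of_nonneg_left h4 (by positivity)
      _ = (1 + x) ^ 3 * (M * E * (a * b / S)) := by ring
      _ ≤ (1 + ε) * (M * E * (a * b / S)) := by
          refine mul_le_mul_of_nonneg_right ?_ (by positivity)
          have h6 : (1 + x) ^ 3 ≤ 1 + 7 * x := by
            have h7 : x ≤ 1 := by linarith
            have h8 : x ^ 2 ≤ x := by nlinarith
            have h9 : x ^ 3 ≤ x := by nlinarith [mul_nonneg hx0.le hx0.le]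
            nlinarith
          linarith
      _ = (1 + ε) * ((a : ℝ) * b * (M * E) / S) := by ring

end Pool.Agent.H31.TR
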