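import Mathlib

set_option autoImplicit false

namespace Pool.Agent.H31.TR

/-- The elementary estimate of the exponents. -/
theorem est_nat (e n m t : ℕ) (he : 1 ≤ e) (hm : 1 ≤ m)
    (hmn : m = n / (2 ^ e * (2 ^ e - 1))) (hn : n = m + t) :
    2 ^ e * (2 ^ e - 1) * t * 2 ^ m ≤ (n + 1) * 2 ^ t := by
  rcases Nat.lt_or_ge e 2 with h | h
  · have he1 : e = 1 := by omega
    subst he1
    have h1 : 2 ^ 1 * (2 ^ 1 - 1) = 2 := by norm_num
    rw [h1] at hmn ⊢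
    have hmt : m ≤ t := by omega
    have h2 : 2 * t ≤ n + 1 := by omega
    calc 2 * t * 2 ^ m ≤ (n + 1) * 2 ^ m := Nat.mul_le_mul_right _ h2
      _ ≤ (n + 1) * 2 ^ t := Nat.mul_le_mul_left _ (Nat.pow_le_pow_right (by norm_num) hmt)
  · set P := 2 ^ e * (2 ^ e - 1) with hP
    have h4 : 4 ≤ 2 ^ e := by
      calc 4 = 2 ^ 2 := by norm_num
        _ ≤ 2 ^ e := Nat.pow_le_pow_right (by norm_num) h
    have hP12 : 12 ≤ P := by
      calc 12 = 4 * 3 := by norm_num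
        _ ≤ 2 ^ e * (2 ^ e - 1) := Nat.mul_le_mul h4 (by omega)
    have hPm : P * m ≤ n := by
      rw [hmn]
      exact Nat.mul_div_le n P
    have h5 : P - 2 ≤ t - m := by
      have h6 : (P - 2) * m ≤ t - m := by
        have h7 : (P - 2) * m = P * m - 2 * m := Nat.sub_mul _ _ _
        omega
      calc P - 2 = (P - 2) * 1 := by ring
        _ ≤ (P - 2) * m := Nat.mul_le_mul_left _ hm
        _ ≤ t - m := h6
    have hmt : m ≤ t := by omega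
    have h8 : P ≤ 2 ^ (P - 2) := by
      obtain ⟨k, hk⟩ : ∃ k, P = k + 4 := ⟨P - 4, by omega⟩
      rw [hk]
      have h9 : k + 4 - 2 = k + 2 := by omega
      rw [h9]
      have h10 : k < 2 ^ k := Nat.lt_two_pow_self
      have h11 : 2 ^ (k + 2) = 4 * 2 ^ k := by ring
      omega
    have h12 : P ≤ 2 ^ (t - m) := h8.trans (Nat.pow_le_pow_right (by norm_num) h5)
    have h13 : 2 ^ (t - m) * 2 ^ m = 2 ^ t := by
      rw [← pow_add]
      congr 1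
      omega
    calc P * t * 2 ^ m ≤ 2 ^ (t - m) * (n + 1) * 2 ^ m :=
          Nat.mul_le_mul_right _ (Nat.mul_le_mul h12 (by omega))
      _ = (n + 1) * (2 ^ (t - m) * 2 ^ m) := by ring
      _ = (n + 1) * 2 ^ t := by rw [h13]

/-- The estimate of the number of summands. -/
theorem est (e n m t N₁ N₂ s A r : ℕ) (he : 1 ≤ e) (hm : 1 ≤ m)
    (hmn : m = n / (2 ^ e * (2 ^ e - 1))) (hn : n = m + t) (hN₁ : 2 ^ m ≤ N₁) (hN₂ : 2 ^ t ≤ N₂)
    (hr : r * (1 + s) ≤ N₁ + s) (hA : A ≤ 2 ^ e * (2 ^ e - 1) * t) :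
    ((r * N₂ + N₁ * A : ℕ) : ℝ) ≤ (N₁ * N₂ : ℝ) / (1 + s) + (n + 2) * (N₁ * N₂) / 2 ^ m := by
  have hs : (0 : ℝ) < 1 + s := by positivity
  have h2m : (0 : ℝ) < 2 ^ m := by positivity
  have hN10 : (0 : ℝ) ≤ N₁ := Nat.cast_nonneg _
  have hN20 : (0 : ℝ) ≤ N₂ := Nat.cast_nonneg _
  -- the first summand
  have h1 : (r : ℝ) ≤ N₁ / (1 + s) + 1 := by
    have h : ((r * (1 + s) : ℕ) : ℝ) ≤ ((N₁ + s : ℕ) : ℝ) := by exact_mod_cast hr
    push_cast at h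
    have h' : (N₁ : ℝ) / (1 + s) + 1 = (N₁ + (1 + s)) / (1 + s) := by field_simp
    rw [h', le_div_iff₀ hs]
    linarith
  have h2 : (N₂ : ℝ) ≤ N₁ * N₂ / 2 ^ m := by
    rw [le_div_iff₀ h2m]
    have h : ((2 ^ m : ℕ) : ℝ) ≤ (N₁ : ℝ) := by exact_mod_cast hN₁
    push_cast at h
    nlinarith
  -- the second summand
  have h3 : (A : ℝ) * 2 ^ m ≤ (n + 1) * N₂ := by
    have h : A * 2 ^ m ≤ (n + 1) * N₂ :=
      calc A * 2 ^ m ≤ 2 ^ e * (2 ^ e - 1) * t * 2 ^ m := Nat.mul_le_mul_right _ hA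
        _ ≤ (n + 1) * 2 ^ t := est_nat e n m t he hm hmn hn
        _ ≤ (n + 1) * N₂ := Nat.mul_le_mul_left _ hN₂
    exact_mod_cast h
  have h4 : (N₁ : ℝ) * A ≤ (n + 1) * (N₁ * N₂) / 2 ^ m := by
    rw [le_div_iff₀ h2m]
    nlinarith
  have h5 : (r : ℝ) * N₂ ≤ N₁ * N₂ / (1 + s) + N₂ := by
    have := mul_le_mul_of_nonneg_right h1 hN20
    calc (r : ℝ) * N₂ ≤ (N₁ / (1 + s) + 1) * N₂ := this
      _ = N₁ * N₂ / (1 + s) + N₂ := by ring
  push_cast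
  have h6 : ((n : ℝ) + 2) * (N₁ * N₂) / 2 ^ m =
      (n + 1) * (N₁ * N₂) / 2 ^ m + N₁ * N₂ / 2 ^ m := by ring
  rw [h6]
  linarith

end Pool.Agent.H31.TR
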