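import Mathlib

/-!
MP_b12e0e_ag (helper31): the numbers for the gadget construction with three large factors.
-/

set_option autoImplicit false

namespace Pool.Agent.H31.TR

theorem est_three (ε : ℝ) (hε : 0 < ε) : ∃ u K m₀ : ℕ, 1 ≤ u ∧ ∀ a b c g NJ : ℕ,
    m₀ ≤ c → c ≤ b → b ≤ a →
    K * (1 + ((a - 1) + (b - 1) + (c - 1)) + g) ≤ b * c →
    ∃ h w p q oa ob oc : ℕ, a = 2 * (u * h) + oa ∧ b = u * (2 * w + p) + ob ∧
      c = u * (2 * w + q) + oc ∧
      1 ≤ h ∧ u * (p * q + w * (p + q) + 2 * w) ≤ u * ((h - 1) * (2 * w)) + w * g ∧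
      ((NJ * (h * u * (2 * w) * u + h * (2 * w) * (2 * u)) +
        (oa * c + ob * c + oc * b) * NJ : ℕ) : ℝ) ≤
        (1 + ε) * ((a * b * c * NJ : ℝ) /
          (1 + (((a : ℝ) - 1) + ((b : ℝ) - 1) + ((c : ℝ) - 1)) + g)) := by
  set δ : ℝ := min ε 1 with hδ
  have hδ0 : 0 < δ := lt_min hε one_pos
  have hδ1 : δ ≤ 1 := min_le_right _ _
  have hδε : δ ≤ ε := min_le_left _ _
  obtain ⟨u, hu⟩ := exists_nat_ge (8 / δ)
  have hu0 : (0 : ℝ) < u := lt_of_lt_of_le (by positivity) hu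
  have hu1 : 1 ≤ u := by
    rw [Nat.one_le_iff_ne_zero]
    rintro rfl
    simp at hu0
  obtain ⟨K, hK⟩ := exists_nat_ge (4 * (6 * u + 2) / δ : ℝ)
  have hK0 : (0 : ℝ) < K := lt_of_lt_of_le (by positivity) hK
  obtain ⟨m, hm⟩ := exists_nat_ge (9 * u * (4 / δ + 1) : ℝ)
  refine ⟨u, K, m + 36 * u + 36, hu1, fun a b c g NJ hc hcb hba hKS => ?_⟩
  -- the parts
  obtain ⟨h, oa, ha, hoa⟩ : ∃ h oa : ℕ, a = 2 * (u * h) + oa ∧ oa < 2 * u :=
    ⟨a / (2 * u), a % (2 * u), by
      rw [← mul_assoc]; exact (Nat.div_add_mod a (2 * u)).symm, Nat.mod_lt _ (by omega)⟩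
  obtain ⟨b₁, ob, hb, hob⟩ : ∃ b₁ ob : ℕ, b = u * b₁ + ob ∧ ob < u :=
    ⟨b / u, b % u, (Nat.div_add_mod b u).symm, Nat.mod_lt _ (by omega)⟩
  obtain ⟨c₁, oc, hc1, hoc⟩ : ∃ c₁ oc : ℕ, c = 2 * u * c₁ + oc ∧ oc < 2 * u :=
    ⟨c / (2 * u), c % (2 * u), (Nat.div_add_mod c (2 * u)).symm, Nat.mod_lt _ (by omega)⟩
  -- casts
  have haR : (a : ℝ) = 2 * (u * h) + oa := by exact_mod_cast ha
  have hbR : (b : ℝ) = u * b₁ + ob := by exact_mod_cast hb
  have hcR : (c : ℝ) = 2 * u * c₁ + oc := by exact_mod_cast hc1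
  have hoaR : (oa : ℝ) ≤ 2 * u := by exact_mod_cast hoa.le
  have hobR : (ob : ℝ) ≤ u := by exact_mod_cast hob.le
  have hocR : (oc : ℝ) ≤ 2 * u := by exact_mod_cast hoc.le
  have hoa0 : (0 : ℝ) ≤ oa := Nat.cast_nonneg _
  have hob0 : (0 : ℝ) ≤ ob := Nat.cast_nonneg _
  have hoc0 : (0 : ℝ) ≤ oc := Nat.cast_nonneg _
  have hh0 : (0 : ℝ) ≤ h := Nat.cast_nonneg _
  have hb0 : (0 : ℝ) ≤ b₁ := Nat.cast_nonneg _
  have hc0 : (0 : ℝ) ≤ c₁ := Nat.cast_nonneg _
  have hg0 : (0 : ℝ) ≤ g := Nat.cast_nonneg _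
  have hcm : (m : ℝ) + 36 * u + 36 ≤ c := by exact_mod_cast hc
  have hcbR : (c : ℝ) ≤ b := by exact_mod_cast hcb
  have hbaR : (b : ℝ) ≤ a := by exact_mod_cast hba
  have hm0 : (0 : ℝ) ≤ m := Nat.cast_nonneg _
  have hu1R : (1 : ℝ) ≤ u := by exact_mod_cast hu1
  have hh1 : 1 ≤ h := by
    rw [Nat.one_le_iff_ne_zero]
    rintro rfl
    simp only [Nat.cast_zero, mul_zero, zero_add] at haR
    linarith
  have hb36 : (36 : ℝ) ≤ b₁ := by
    by_contra hlt
    push Not at hlt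
    have : (u : ℝ) * b₁ ≤ u * 35 := by
      refine mul_le_mul_of_nonneg_left ?_ hu0.le
      have : b₁ < 36 := by exact_mod_cast hlt
      have : b₁ ≤ 35 := by omega
      exact_mod_cast this
    linarith
  -- the denominator
  set D : ℝ := g + u * b₁ + 2 * u * c₁ + 2 * (u * h) - 4 * u with hD
  have hD1 : (g : ℝ) + a + b + c - 9 * u ≤ D := by rw [hD]; linarith
  have hD0 : 0 < D := by linarith
  set x : ℝ := 2 * u * b₁ * c₁ / D with hx
  have hx0 : 0 ≤ x := by positivity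
  have hxD : x * D = 2 * u * b₁ * c₁ := div_mul_cancel₀ _ hD0.ne'
  set w : ℕ := ⌈x⌉₊ with hw
  have hw1 : x ≤ w := Nat.le_ceil x
  have hw2 : (w : ℝ) < x + 1 := Nat.ceil_lt_add_one hx0
  have hwc : w ≤ c₁ := by
    rw [hw, Nat.ceil_le, hx, div_le_iff₀ hD0]
    have h1 : 2 * (u : ℝ) * b₁ ≤ D := by linarith
    have := mul_le_mul_of_nonneg_right h1 hc0
    linarith
  have hwb : 2 * w ≤ b₁ := by
    have h1 : x ≤ b₁ / 2 - 1 := by
      rw [hx, div_le_iff₀ hD0]
      have h2 : 2 * (u : ℝ) * c₁ ≤ c := by linarith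
      have h3 : (2 * (u : ℝ) * c₁) * b₁ ≤ c * b₁ := mul_le_mul_of_nonneg_right h2 hb0
      have h4 : (11 / 4 : ℝ) * c ≤ D := by linarith
      have h5 : (2 / 5 : ℝ) * b₁ ≤ b₁ / 2 - 1 := by linarith
      have h6 : (2 / 5 : ℝ) * b₁ * (11 / 4 * c) ≤ (b₁ / 2 - 1) * D :=
        mul_le_mul h5 h4 (by positivity) (by linarith)
      have h7 : (c : ℝ) * b₁ ≤ (2 / 5 : ℝ) * b₁ * (11 / 4 * c) := by
        have : (0 : ℝ) ≤ c * b₁ := by positivity
        linarith
      linarith
    have h2 : (2 : ℝ) * w ≤ b₁ := by linarith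
    exact_mod_cast h2
  obtain ⟨p, hp⟩ := Nat.exists_eq_add_of_le hwb
  obtain ⟨q, hq⟩ : ∃ q, 2 * c₁ = 2 * w + q := Nat.exists_eq_add_of_le (by omega)
  have hpR : (b₁ : ℝ) = 2 * w + p := by exact_mod_cast hp
  have hqR : 2 * (c₁ : ℝ) = 2 * w + q := by exact_mod_cast hq
  refine ⟨h, w, p, q, oa, ob, oc, ha, by rw [← hp]; exact hb, ?_, hh1, ?_, ?_⟩
  · rw [← hq, hc1]
    ring
  · obtain ⟨h', rfl⟩ : ∃ h', h = h' + 1 := ⟨h - 1, by omega⟩
    rw [Nat.add_sub_cancel]
    have h1 : 2 * (u : ℝ) * b₁ * c₁ ≤ w * D := by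
      rw [← hxD]
      exact mul_le_mul_of_nonneg_right hw1 hD0.le
    have h2 : (u : ℝ) * (p * q + w * (p + q) + 2 * w) ≤ u * (h' * (2 * w)) + w * g := by
      have h3 : (u : ℝ) * (p * q + w * (p + q) + 2 * w) =
          2 * u * b₁ * c₁ - u * w * b₁ - 2 * u * w * c₁ + 2 * u * w := by
        have hp' : (p : ℝ) = b₁ - 2 * w := by linarith
        have hq' : (q : ℝ) = 2 * c₁ - 2 * w := by linarith
        rw [hp', hq']
        ring
      have h4 : (w : ℝ) * D = w * g + u * w * b₁ + 2 * u * w * c₁ + 2 * u * w * (h' + 1) -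
          4 * u * w := by
        rw [hD]
        push_cast
        ring
      rw [h3]
      linarith
    exact_mod_cast h2
  · set S : ℝ := 1 + (((a : ℝ) - 1) + ((b : ℝ) - 1) + ((c : ℝ) - 1)) + g with hS
    have hS0 : 0 < S := by linarith
    have hKS' : (K : ℝ) * S ≤ b * c := by
      have h1 : ((K * (1 + ((a - 1) + (b - 1) + (c - 1)) + g) : ℕ) : ℝ) ≤ ((b * c : ℕ) : ℝ) := by
        exact_mod_cast hKS
      have ha1 : 1 ≤ a := by omega
      have hb1 : 1 ≤ b := by omega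
      have hc1' : 1 ≤ c := by omega
      push_cast [Nat.cast_sub ha1, Nat.cast_sub hb1, Nat.cast_sub hc1'] at h1
      exact h1
    have ha0 : (0 : ℝ) < a := by linarith
    have hb00 : (0 : ℝ) < b := by linarith
    have hc00 : (0 : ℝ) < c := by linarith
    set M : ℝ := a * b * c / S with hM
    have hM0 : 0 < M := by positivity
    -- the denominators
    have hDS : a * b * c / D ≤ (1 + δ / 4) * M := by
      rw [hM, div_le_iff₀ hD0]
      have h1 : S ≤ (1 + δ / 4) * D := by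
        have h2 : 9 * (u : ℝ) * (4 / δ + 1) ≤ S := by linarith
        have h3 : (1 + δ / 4) * (9 * u) ≤ δ / 4 * S := by
          have h4 := mul_le_mul_of_nonneg_left h2 (by positivity : (0 : ℝ) ≤ δ / 4)
          have h5 : δ / 4 * (9 * (u : ℝ) * (4 / δ + 1)) = (1 + δ / 4) * (9 * u) := by
            field_simp
          linarith
        have h6 : S - 9 * u ≤ D := by linarith
        have h7 := mul_le_mul_of_nonneg_left h6 (by positivity : (0 : ℝ) ≤ 1 + δ / 4)
        linarith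
      have h2 : (1 + δ / 4) * (a * b * c / S) * D = a * b * c * (((1 + δ / 4) * D) / S) := by
        field_simp
      rw [h2]
      have h3 : 1 ≤ ((1 + δ / 4) * D) / S := by
        rw [le_div_iff₀ hS0, one_mul]
        exact h1
      have h4 : (0 : ℝ) < a * b * c := by positivity
      have := mul_le_mul_of_nonneg_left h3 h4.le
      linarith
    have haM : (a : ℝ) ≤ M / K := by
      rw [hM, div_div, le_div_iff₀ (by positivity)]
      have := mul_le_mul_of_nonneg_left hKS' ha0.le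
      linarith
    -- the number of points
    set V : ℝ := 2 * u ^ 2 * h * w with hV
    have hV1 : V ≤ a * b * c / D + u * a := by
      have h1 : V ≤ 2 * u ^ 2 * h * (x + 1) := by
        rw [hV]
        exact mul_le_mul_of_nonneg_left hw2.le (by positivity)
      have h2 : 2 * (u : ℝ) ^ 2 * h * x ≤ a * b * c / D := by
        rw [hx, le_div_iff₀ hD0]
        have h3 : 2 * (u : ℝ) ^ 2 * h * (2 * u * b₁ * c₁ / D) * D =
            (2 * (u * h)) * (u * b₁) * (2 * u * c₁) := by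
          field_simp
        rw [h3]
        have h4 : 2 * ((u : ℝ) * h) ≤ a := by linarith
        have h5 : (u : ℝ) * b₁ ≤ b := by linarith
        have h6 : 2 * (u : ℝ) * c₁ ≤ c := by linarith
        exact mul_le_mul (mul_le_mul h4 h5 (by positivity) ha0.le) h6 (by positivity)
          (by positivity)
      have h3 : 2 * (u : ℝ) ^ 2 * h ≤ u * a := by
        have h4 : 2 * ((u : ℝ) * h) ≤ a := by linarith
        have := mul_le_mul_of_nonneg_left h4 hu0.le
        linarith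
      linarith
    have hV2 : 4 * (u : ℝ) * h * w = 2 / u * V := by
      rw [hV]
      field_simp
      ring
    have hrest : (oa : ℝ) * c + ob * c + oc * b ≤ 5 * u * a := by
      have h1 : (oa : ℝ) * c ≤ 2 * u * a :=
        mul_le_mul hoaR (hcbR.trans hbaR) hc00.le (by positivity)
      have h2 : (ob : ℝ) * c ≤ u * a := mul_le_mul hobR (hcbR.trans hbaR) hc00.le (by positivity)
      have h3 : (oc : ℝ) * b ≤ 2 * u * a := mul_le_mul hocR hbaR hb00.le (by positivity)
      linarith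
    have hu8 : 2 / (u : ℝ) ≤ δ / 4 := by
      rw [div_le_iff₀ hu0]
      rw [div_le_iff₀ hδ0] at hu
      linarith
    have hK8 : (6 * u + 2) / (K : ℝ) ≤ δ / 4 := by
      rw [div_le_iff₀ hK0]
      rw [div_le_iff₀ hδ0] at hK
      linarith
    have htot : V + 4 * u * h * w + (oa * c + ob * c + oc * b) ≤ (1 + δ) * M := by
      rw [hV2]
      have h0 : (0 : ℝ) ≤ V := by positivity
      have h1 : V + 2 / u * V ≤ (1 + 2 / u) * (a * b * c / D) + (u + 2) * a := by
        have h2 : (1 + 2 / (u : ℝ)) * V ≤ (1 + 2 / u) * (a * b * c / D + u * a) :=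
          mul_le_mul_of_nonneg_left hV1 (by positivity)
        have h3 : (1 + 2 / (u : ℝ)) * (u * a) = (u + 2) * a := by
          field_simp
        linarith
      have h4 : (1 + 2 / (u : ℝ)) * (a * b * c / D) ≤ (1 + δ / 4) * ((1 + δ / 4) * M) :=
        mul_le_mul (by linarith) hDS (by positivity) (by positivity)
      have h5 : (6 * (u : ℝ) + 2) * a ≤ δ / 4 * M := by
        have h6 : (6 * (u : ℝ) + 2) * a ≤ (6 * u + 2) * (M / K) :=
          mul_le_mul_of_nonneg_left haM (by positivity)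
        have h7 : (6 * (u : ℝ) + 2) * (M / K) = (6 * u + 2) / K * M := by
          field_simp
        have h8 := mul_le_mul_of_nonneg_right hK8 hM0.le
        linarith
      have h9 : (1 + δ / 4) * ((1 + δ / 4) * M) + δ / 4 * M ≤ (1 + δ) * M := by
        have h10 : (1 + δ) * M - ((1 + δ / 4) * ((1 + δ / 4) * M) + δ / 4 * M) =
            δ * (4 - δ) / 16 * M := by ring
        have h11 : 0 ≤ δ * (4 - δ) / 16 * M := by
          have : 0 ≤ 4 - δ := by linarith
          positivity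
        linarith
      linarith
    have hN0 : (0 : ℝ) ≤ NJ := Nat.cast_nonneg _
    have hfin : ((NJ * (h * u * (2 * w) * u + h * (2 * w) * (2 * u)) +
        (oa * c + ob * c + oc * b) * NJ : ℕ) : ℝ) =
        NJ * (V + 4 * u * h * w + (oa * c + ob * c + oc * b)) := by
      rw [hV]
      push_cast
      ring
    rw [hfin]
    have hfin2 : (1 + ε) * ((a * b * c * NJ : ℝ) / S) = NJ * ((1 + ε) * M) := by
      rw [hM]
      ring
    rw [hfin2]
    refine mul_le_mul_of_nonneg_left (htot.trans ?_) hN0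
    exact mul_le_mul_of_nonneg_right (by linarith) hM0.le

end Pool.Agent.H31.TR
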