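import Mathlib

set_option autoImplicit false

/-! Arithmetic for five factors. -/

namespace Pool.Agent.H31.TR

/-- The counting condition, in integers. -/
private theorem count5 {q h o k a b T : ℤ} (hq : q = 2 * h + o) (ho : o ≤ 1)
    (ha : q = k + a) (hb : b = a ^ 2 - (h - 1) * k) (hr : 0 ≤ h * k)
    (key : q ^ 3 ≤ h * k * (5 * q - 4 - T)) :
    h * (2 * (k * a) + 2 * b) + o * q ^ 2 ≤ (2 * q - 1 - T) * (h * k) := by
  have e1 : h * (2 * (k * a) + 2 * b) + o * q ^ 2 = q ^ 3 - h * k * (3 * q - o - 2) := by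
    have ha' : a = q - k := by linarith
    rw [hb, ha']
    have ho' : o = q - 2 * h := by linarith
    rw [ho']
    ring
  rw [e1]
  nlinarith [mul_nonneg hr (sub_nonneg.2 ho)]

/-- The size estimate, in reals. -/
private theorem size5 {Q H K D T E F s : ℝ} (hs : 100 ≤ s) (hQ : Q = s ^ 2)
    (hT : T ≤ s) (hT' : s ≤ 2 * T) (hD : D = 5 * Q - 4 - T) (hH : H ≤ Q / 2)
    (h2 : H * D * (K - 1) ≤ Q ^ 3) (hE : E ≤ 2 * Q) (hF0 : 0 ≤ F) (hFT : F * T = E) :
    H * K * Q ^ 2 + Q ^ 2 * (E * F) ≤ (1 + 50 / s) * (Q ^ 5 / (1 + 5 * (Q - 1))) := by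
  have hs0 : 0 < s := by linarith
  have hQ0 : 0 < Q := by rw [hQ]; positivity
  have hQs : 100 * s ≤ Q := by rw [hQ]; nlinarith
  have hD1 : 4 * Q ≤ D := by rw [hD]; nlinarith
  have hD0 : 0 < D := by linarith
  have hG : 1 + 5 * (Q - 1) = D + T := by rw [hD]; ring
  have hT0 : 0 < T := by linarith
  have hF : F ≤ 4 * s := by
    by_contra hc
    push Not at hc
    have : 4 * s * (s / 2) < F * T := by
      have h1 : s / 2 ≤ T := by linarith
      calc 4 * s * (s / 2) < F * (s / 2) := by gcongr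
        _ ≤ F * T := by gcongr
    rw [hFT] at this
    nlinarith
  have hE0 : 0 ≤ E := by rw [← hFT]; positivity
  have hEF : E * F ≤ 2 * Q * (4 * s) := by gcongr
  set L : ℝ := Q ^ 5 / (1 + 5 * (Q - 1)) with hL
  have hL0 : 0 < L := by
    rw [hL, hG]; positivity
  have hL1 : Q ^ 4 / 5 ≤ L := by
    rw [hL, div_le_div_iff₀ (by norm_num) (by rw [hG]; linarith)]
    nlinarith [pow_pos hQ0 4]
  -- the first term
  have h3 : H * K ≤ Q ^ 3 / D + Q / 2 := by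
    have : H * (K - 1) ≤ Q ^ 3 / D := by
      rw [le_div_iff₀ hD0]
      linarith
    linarith
  have h4 : Q ^ 5 / D ≤ L * (1 + 1 / (4 * s)) := by
    have e1 : Q ^ 5 / D = L * (1 + T / D) := by
      rw [hL, hG]
      field_simp
    rw [e1]
    have : T / D ≤ 1 / (4 * s) := by
      rw [div_le_div_iff₀ hD0 (by positivity)]
      have h5 : T * (4 * s) ≤ s * (4 * s) := by gcongr
      have h6 : s * (4 * s) = 4 * Q := by rw [hQ]; ring
      linarith
    gcongr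
  have h5 : H * K * Q ^ 2 ≤ L * (1 + 1 / (4 * s)) + Q ^ 3 / 2 := by
    have : H * K * Q ^ 2 ≤ (Q ^ 3 / D + Q / 2) * Q ^ 2 := by gcongr
    have e1 : (Q ^ 3 / D + Q / 2) * Q ^ 2 = Q ^ 5 / D + Q ^ 3 / 2 := by ring
    linarith
  have h6 : Q ^ 2 * (E * F) ≤ 8 * (Q ^ 3 * s) := by
    have : Q ^ 2 * (E * F) ≤ Q ^ 2 * (2 * Q * (4 * s)) := by gcongr
    linarith [this, (by ring : Q ^ 2 * (2 * Q * (4 * s)) = 8 * (Q ^ 3 * s))]
  have h7 : Q ^ 3 * s ≤ 5 * (L / s) := by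
    rw [mul_div_assoc', le_div_iff₀ hs0]
    have : Q ^ 3 * s * s = Q ^ 4 := by rw [hQ]; ring
    linarith
  have h8 : Q ^ 3 / 2 ≤ Q ^ 3 * s := by
    have : 0 < Q ^ 3 := by positivity
    nlinarith
  have e2 : (1 + 50 / s) * L = L + 50 * (L / s) := by ring
  have e3 : L * (1 + 1 / (4 * s)) = L + (L / s) / 4 := by field_simp
  have h9 : 0 < L / s := by positivity
  rw [e2]
  rw [e3] at h5
  linarith

theorem est5 (q : ℕ) (hq : 10000 ≤ q) :
    ∃ h o k v e : ℕ, q = 2 * h + o ∧ o ≤ 1 ∧ 1 ≤ k ∧ k ≤ q ∧ h * k ≤ (q - k) ^ 2 ∧ q ≤ 2 ^ e ∧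
      v ≤ e ∧
      h * (2 * (k * (q - k)) + 2 * ((q - k) ^ 2 - (h - 1) * k)) + o * q ^ 2 ≤
        (2 * (q - 1) - (2 ^ v - 1)) * (h * k) ∧
      ((h * k * q ^ 2 + q ^ 2 * (2 ^ e * 2 ^ (e - v)) : ℕ) : ℝ) ≤
        (1 + 50 / Real.sqrt q) * ((q : ℝ) ^ 5 / (1 + 5 * ((q : ℝ) - 1))) := by
  obtain ⟨h, hh⟩ : ∃ h, h = q / 2 := ⟨_, rfl⟩
  obtain ⟨o, ho⟩ : ∃ o, o = q % 2 := ⟨_, rfl⟩
  obtain ⟨t, ht⟩ : ∃ t, t = Nat.sqrt q := ⟨_, rfl⟩
  have ho1 : o ≤ 1 := by omega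
  have hqo : q = 2 * h + o := by omega
  have ht1 : t * t ≤ q := by rw [ht]; exact Nat.sqrt_le q
  have ht2 : q < (t + 1) * (t + 1) := by rw [ht]; exact Nat.lt_succ_sqrt q
  have ht100 : 100 ≤ t := by rw [ht, Nat.le_sqrt]; omega
  obtain ⟨v, hv⟩ : ∃ v, v = Nat.log 2 t := ⟨_, rfl⟩
  have hT1 : 2 ^ v ≤ t := by rw [hv]; exact Nat.pow_log_le_self 2 (by omega)
  have hT2 : t < 2 * 2 ^ v := by
    have := Nat.lt_pow_succ_log_self (b := 2) (by norm_num) t
    rw [← hv, Nat.succ_eq_add_one, pow_succ] at this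
    omega
  obtain ⟨e, he⟩ : ∃ e, e = Nat.clog 2 q := ⟨_, rfl⟩
  have he1 : q ≤ 2 ^ e := by rw [he]; exact Nat.le_pow_clog (by norm_num) q
  have he0 : 1 ≤ e := by
    by_contra hc
    have : e = 0 := by omega
    rw [this] at he1
    omega
  have he2 : 2 ^ e < 2 * q := by
    have := Nat.pow_pred_clog_lt_self (b := 2) (by norm_num) (x := q) (by omega)
    rw [← he, Nat.pred_eq_sub_one] at this
    have e1 : 2 ^ e = 2 * 2 ^ (e - 1) := by
      rw [← pow_succ']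
      congr 1
      omega
    omega
  obtain ⟨T, hT⟩ : ∃ T, T = 2 ^ v := ⟨_, rfl⟩
  rw [← hT] at hT1 hT2
  have htq : t ≤ q := by nlinarith
  have hve : v ≤ e := by
    have : 2 ^ v ≤ 2 ^ e := by rw [← hT]; omega
    exact (Nat.pow_le_pow_iff_right (by norm_num)).1 this
  have hT0 : 1 ≤ T := by rw [hT]; exact Nat.one_le_two_pow
  obtain ⟨D, hD⟩ : ∃ D, D = 5 * q - 4 - T := ⟨_, rfl⟩
  have hDT : D + T + 4 = 5 * q := by omega
  have hh0 : 1 ≤ h := by omega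
  have hD0 : 1 ≤ D := by omega
  obtain ⟨k, hk⟩ : ∃ k, k = q ^ 3 / (h * D) + 1 := ⟨_, rfl⟩
  have hk1 : q ^ 3 < h * D * k := by
    rw [hk]
    exact Nat.lt_mul_div_succ _ (by positivity)
  have hk2 : h * D * (k - 1) ≤ q ^ 3 := by
    rw [hk, Nat.add_sub_cancel]
    exact Nat.mul_div_le _ _
  have hk0 : 1 ≤ k := by rw [hk]; exact Nat.le_add_left 1 _
  -- reals
  have hQ0 : (10000 : ℝ) ≤ q := by exact_mod_cast hq
  have hHr : (q : ℝ) = 2 * h + o := by exact_mod_cast hqo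
  have hor : (o : ℝ) ≤ 1 := by exact_mod_cast ho1
  have hor0 : (0 : ℝ) ≤ o := by positivity
  have hDr : (D : ℝ) + T + 4 = 5 * q := by exact_mod_cast hDT
  have htr : (t : ℝ) * t ≤ q := by exact_mod_cast ht1
  have ht100r : (100 : ℝ) ≤ t := by exact_mod_cast ht100
  have hT1r : (T : ℝ) ≤ t := by exact_mod_cast hT1
  have hk2r : (h : ℝ) * D * (k - 1) ≤ (q : ℝ) ^ 3 := by
    have : ((h * D * (k - 1) : ℕ) : ℝ) ≤ ((q ^ 3 : ℕ) : ℝ) := by exact_mod_cast hk2
    rw [Nat.cast_mul, Nat.cast_mul, Nat.cast_sub hk0, Nat.cast_pow, Nat.cast_one] at this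
    exact this
  have htq' : (t : ℝ) ≤ q / 100 := by nlinarith
  have hDlow : 4.98 * (q : ℝ) ≤ D := by linarith
  have hHlow : 0.4999 * (q : ℝ) ≤ h := by linarith
  have hk0r : (1 : ℝ) ≤ k := by exact_mod_cast hk0
  have hkr : (k : ℝ) ≤ 0.403 * q := by
    have h1 : 0.4999 * (q : ℝ) * (4.98 * q) * (k - 1) ≤ (q : ℝ) ^ 3 := by
      refine le_trans ?_ hk2r
      have : (0 : ℝ) ≤ k - 1 := by linarith
      gcongr
    have h2 : (q : ℝ) ^ 2 * (2.489 * ((k : ℝ) - 1)) ≤ (q : ℝ) ^ 2 * q := by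
      have h3 : (0 : ℝ) ≤ (q : ℝ) ^ 2 * ((k : ℝ) - 1) :=
        mul_nonneg (by positivity) (by linarith)
      nlinarith
    have h4 := le_of_mul_le_mul_left h2 (by positivity)
    linarith
  have hkq : k ≤ q := by
    have : (k : ℝ) ≤ q := by linarith
    exact_mod_cast this
  have hhk : h * k ≤ (q - k) ^ 2 := by
    have h1 : ((h * k : ℕ) : ℝ) ≤ (((q - k) ^ 2 : ℕ) : ℝ) := by
      rw [Nat.cast_mul, Nat.cast_pow, Nat.cast_sub hkq]
      have h2 : 0.597 * (q : ℝ) ≤ q - k := by linarith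
      have h3 : (0.597 * (q : ℝ)) ^ 2 ≤ ((q : ℝ) - k) ^ 2 := by gcongr
      have h4 : (h : ℝ) * k ≤ (0.5 * q) * (0.403 * q) := by
        have : (h : ℝ) ≤ 0.5 * q := by linarith
        gcongr
      nlinarith
    exact_mod_cast h1
  refine ⟨h, o, k, v, e, hqo, ho1, hk0, hkq, hhk, he1, hve, ?_, ?_⟩
  · -- the count
    have hb : (h - 1) * k ≤ (q - k) ^ 2 := le_trans (Nat.mul_le_mul_right _ (by omega)) hhk
    have hT3 : T - 1 ≤ 2 * (q - 1) := by omega
    have key : (q : ℤ) ^ 3 ≤ (h : ℤ) * k * (5 * q - 4 - T) := by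
      have h1 : (D : ℤ) = 5 * q - 4 - T := by omega
      rw [← h1]
      have h2 : ((q ^ 3 : ℕ) : ℤ) ≤ ((h * D * k : ℕ) : ℤ) := by exact_mod_cast hk1.le
      push_cast at h2
      linarith
    have h3 := count5 (q := q) (h := h) (o := o) (k := k) (a := ((q - k : ℕ) : ℤ))
      (b := (((q - k) ^ 2 - (h - 1) * k : ℕ) : ℤ)) (T := T) (by exact_mod_cast hqo)
      (by exact_mod_cast ho1) (by omega) (by
        rw [Nat.cast_sub hb, Nat.cast_mul, Nat.cast_pow, Nat.cast_sub hh0, Nat.cast_one])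
      (by positivity) key
    have h4 : ((2 * (q - 1) - (T - 1) : ℕ) : ℤ) = 2 * q - 1 - T := by omega
    rw [← hT]
    rw [← h4] at h3
    exact_mod_cast h3
  · -- the size
    have hs : Real.sqrt q ^ 2 = q := Real.sq_sqrt (by positivity)
    have hs1 : (t : ℝ) ≤ Real.sqrt q := by
      apply Real.le_sqrt_of_sq_le
      rw [sq]
      exact htr
    have hs2 : Real.sqrt q < t + 1 := by
      rw [Real.sqrt_lt' (by positivity)]
      have : (q : ℝ) < (t + 1) * (t + 1) := by exact_mod_cast ht2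
      rw [sq]
      exact this
    have hT2r : (t : ℝ) + 1 ≤ 2 * T := by exact_mod_cast hT2
    have h1 := size5 (Q := q) (H := h) (K := k) (D := D) (T := T) (E := (2 : ℝ) ^ e)
      (F := (2 : ℝ) ^ (e - v)) (s := Real.sqrt q) (by linarith) hs.symm (by linarith)
      (by linarith) (by linarith) (by linarith) hk2r
      (by
        have : ((2 ^ e : ℕ) : ℝ) ≤ ((2 * q : ℕ) : ℝ) := by exact_mod_cast he2.le
        push_cast at this
        exact this)
      (by positivity) (by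
        rw [hT]
        push_cast
        rw [← pow_add, Nat.sub_add_cancel hve])
    push_cast
    exact h1

end Pool.Agent.H31.TR
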