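import Mathlib

set_option autoImplicit false

/-! Arithmetic for five factors, balanced formats. -/

namespace Pool.Agent.H31.TR

/-- The counting condition, in integers. -/
private theorem count5b {a b c sJ h o k T bk ck w : ℤ} (hq : a = 2 * h + o) (ho : o ≤ 1)
    (hbk : bk = b - k) (hck : ck = c - k) (hw : w = bk * ck - (h - 1) * k) (hr : 0 ≤ h * k)
    (key : a * b * c ≤ h * k * (a + b + c - 3 + sJ - T)) :
    h * (k * ck + bk * k + 2 * w) + o * (b * c) ≤ (sJ + 1 - T) * (h * k) := by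
  have e1 : h * (k * ck + bk * k + 2 * w) + o * (b * c) =
      a * b * c - h * k * (a + b + c - 2 - o) := by
    rw [hw, hbk, hck]
    have ho' : o = a - 2 * h := by linarith
    rw [ho']
    ring
  rw [e1]
  nlinarith [mul_nonneg hr (sub_nonneg.2 ho)]

/-- The size estimate, in reals. -/
private theorem size5b {A B c D N C SJ H K M T E F s : ℝ} (hs : 100 ≤ s) (hA : A = s ^ 2)
    (hT : T ≤ s) (hT' : s ≤ 2 * T) (hAB : A ≤ B) (hBc : B ≤ c) (hcD : c ≤ D)
    (hDC : D ≤ C * A) (hC : 1 ≤ C) (hS1 : 2 * (c - 1) ≤ SJ) (hS2 : SJ ≤ 2 * (D - 1))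
    (hN : c ^ 2 ≤ N) (hM : M = A + B + c - 3 + SJ - T) (hH : H ≤ A / 2)
    (h2 : H * M * (K - 1) ≤ A * B * c) (hE : E ≤ 2 * D) (hF0 : 0 ≤ F) (hFT : F * T = E) :
    H * K * N + A * B * (E * F) ≤ (1 + 100 * C ^ 3 / s) *
      (A * B * c * N / (1 + ((A - 1) + (B - 1) + (c - 1)) + SJ)) := by
  have hs0 : 0 < s := by linarith
  have hA0 : 0 < A := by rw [hA]; positivity
  have hAs : 100 * s ≤ A := by rw [hA]; nlinarith
  have hB0 : 0 < B := by linarith
  have hc0 : 0 < c := by linarith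
  have hD0 : 0 < D := by linarith
  have hC0 : 0 < C := by linarith
  have hN0 : 0 < N := lt_of_lt_of_le (by positivity) hN
  have hM1 : 2 * A ≤ M := by rw [hM]; linarith
  have hM0 : 0 < M := by linarith
  have hT0 : 0 < T := by linarith
  have hG : 1 + ((A - 1) + (B - 1) + (c - 1)) + SJ = M + (1 + T) := by rw [hM]; ring
  rw [hG]
  have hG0 : 0 < M + (1 + T) := by linarith
  have hG5 : M + (1 + T) ≤ 5 * D := by rw [hM]; linarith
  obtain ⟨L, hL⟩ : ∃ L, L = A * B * c * N / (M + (1 + T)) := ⟨_, rfl⟩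
  rw [← hL]
  have hL0 : 0 < L := by rw [hL]; positivity
  have hLG : L * (M + (1 + T)) = A * B * c * N := by
    rw [hL]; field_simp
  -- the first term
  have h3 : H * K ≤ A * B * c / M + A / 2 := by
    have : H * (K - 1) ≤ A * B * c / M := by
      rw [le_div_iff₀ hM0]
      linarith
    linarith
  have h4 : A * B * c * N / M ≤ L + L / s := by
    rw [div_le_iff₀ hM0, ← hLG]
    have h5 : (1 + T) * s ≤ M := by
      have : (1 + T) * s ≤ (1 + s) * s := by gcongr
      nlinarith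
    have h6 : L * (1 + T) ≤ L / s * M := by
      rw [div_mul_eq_mul_div, le_div_iff₀ hs0]
      nlinarith
    linarith
  have h5 : A / 2 * N ≤ C * (L / s) := by
    rw [mul_div_assoc', le_div_iff₀ hs0]
    have h6 : A / 2 * N * s * (M + (1 + T)) ≤ C * (L * (M + (1 + T))) := by
      rw [hLG]
      have h7 : s * (M + (1 + T)) ≤ 2 * (C * (B * c)) := by
        have h8 : s * (M + (1 + T)) ≤ s * (5 * (C * A)) := by
          gcongr
          linarith
        have h9 : A * A ≤ B * c := by gcongr; linarith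
        have h10 : 5 * s * (C * A) ≤ A * (C * A) := by
          have : 5 * s ≤ A := by linarith
          gcongr
        have h11 : C * (A * A) ≤ C * (B * c) := by gcongr
        nlinarith
      have h12 : 0 < A / 2 * N := by positivity
      calc A / 2 * N * s * (M + (1 + T)) = A / 2 * N * (s * (M + (1 + T))) := by ring
        _ ≤ A / 2 * N * (2 * (C * (B * c))) := by gcongr
        _ = C * (A * B * c * N) := by ring
    have h13 : (A / 2 * N * s) * (M + (1 + T)) ≤ (C * L) * (M + (1 + T)) := by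
      linarith [h6, (by ring : C * (L * (M + (1 + T))) = (C * L) * (M + (1 + T)))]
    exact le_of_mul_le_mul_right h13 hG0
  have h6 : A * B * (E * F) ≤ 40 * C ^ 3 * (L / s) := by
    have hE0 : 0 ≤ E := by rw [← hFT]; positivity
    have hFs : F * s ≤ 4 * D := by
      have : F * s ≤ F * (2 * T) := by gcongr
      linarith [(by ring : F * (2 * T) = 2 * (F * T))]
    rw [mul_div_assoc', le_div_iff₀ hs0]
    have h7 : A * B * (E * F) * s ≤ A * B * (8 * D ^ 2) := by
      have h8 : E * (F * s) ≤ 2 * D * (4 * D) := by gcongr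
      calc A * B * (E * F) * s = A * B * (E * (F * s)) := by ring
        _ ≤ A * B * (2 * D * (4 * D)) := by gcongr
        _ = A * B * (8 * D ^ 2) := by ring
    refine le_trans h7 ?_
    have h9 : A * B * (8 * D ^ 2) * (M + (1 + T)) ≤ 40 * C ^ 3 * (L * (M + (1 + T))) := by
      rw [hLG]
      have h10 : D ≤ C * c := by
        have : C * A ≤ C * c := by
          gcongr
          linarith
        linarith
      have h11 : D ^ 3 ≤ (C * c) ^ 3 := by gcongr
      have h12 : D ^ 2 * (M + (1 + T)) ≤ D ^ 2 * (5 * D) := by gcongr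
      have h13 : c * c ^ 2 ≤ c * N := by gcongr
      have h14 : D ^ 2 * (M + (1 + T)) ≤ 5 * (C ^ 3 * (c * N)) := by
        calc D ^ 2 * (M + (1 + T)) ≤ D ^ 2 * (5 * D) := h12
          _ = 5 * D ^ 3 := by ring
          _ ≤ 5 * (C * c) ^ 3 := by gcongr
          _ = 5 * (C ^ 3 * (c * c ^ 2)) := by ring
          _ ≤ 5 * (C ^ 3 * (c * N)) := by gcongr
      calc A * B * (8 * D ^ 2) * (M + (1 + T)) = 8 * (A * B) * (D ^ 2 * (M + (1 + T))) := by ring
        _ ≤ 8 * (A * B) * (5 * (C ^ 3 * (c * N))) := by gcongr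
        _ = 40 * C ^ 3 * (A * B * c * N) := by ring
    have h15 : (A * B * (8 * D ^ 2)) * (M + (1 + T)) ≤ (40 * C ^ 3 * L) * (M + (1 + T)) := by
      linarith [h9, (by ring : 40 * C ^ 3 * (L * (M + (1 + T))) = (40 * C ^ 3 * L) * (M + (1 + T)))]
    exact le_of_mul_le_mul_right h15 hG0
  have h7 : H * K * N ≤ (L + L / s) + C * (L / s) := by
    have : H * K * N ≤ (A * B * c / M + A / 2) * N := by gcongr
    have e1 : (A * B * c / M + A / 2) * N = A * B * c * N / M + A / 2 * N := by ring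
    linarith
  have hC1 : 1 ≤ C ^ 3 := one_le_pow₀ hC
  have hC2 : C ≤ C ^ 3 := by
    calc C = C ^ 1 := (pow_one C).symm
      _ ≤ C ^ 3 := pow_le_pow_right₀ hC (by norm_num)
  have hLs : 0 < L / s := by positivity
  have e2 : (1 + 100 * C ^ 3 / s) * L = L + 100 * C ^ 3 * (L / s) := by ring
  rw [e2]
  have h8 : L / s + C * (L / s) + 40 * C ^ 3 * (L / s) ≤ 100 * C ^ 3 * (L / s) := by
    have : (1 + C + 40 * C ^ 3) * (L / s) ≤ (100 * C ^ 3) * (L / s) := by
      gcongr
      linarith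
    linarith [(by ring : (1 + C + 40 * C ^ 3) * (L / s) =
      L / s + C * (L / s) + 40 * C ^ 3 * (L / s))]
  linarith

/-- The first part is not too large. -/
private theorem cell5b {a b c h k M : ℝ} (ha : 10000 ≤ a) (hab : a ≤ b) (hbc : b ≤ c)
    (hh1 : 0.4999 * a ≤ h) (hh2 : h ≤ a / 2) (hk : 1 ≤ k)
    (hM : 0.9979 * (a + b + 3 * c) ≤ M) (h2 : h * M * (k - 1) ≤ a * b * c) :
    k ≤ b ∧ h * k ≤ (b - k) * (c - k) := by
  have ha0 : 0 < a := by linarith
  have hb0 : 0 < b := by linarith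
  have hc0 : 0 < c := by linarith
  obtain ⟨W, hW⟩ : ∃ W, W = a + b + 3 * c := ⟨_, rfl⟩
  rw [← hW] at hM
  have hW0 : 0 < W := by linarith
  have hk0 : 0 ≤ k - 1 := by linarith
  have hh0 : 0 ≤ h := by linarith
  have h3 : (k - 1) * W ≤ 2.0047 * (b * c) := by
    have h4 : 0.4999 * a * (0.9979 * W) * (k - 1) ≤ h * M * (k - 1) := by gcongr
    have h5 : a * (0.49885 * ((k - 1) * W)) ≤ a * (b * c) := by
      have : 0 ≤ a * ((k - 1) * W) := by positivity
      nlinarith
    have h6 := le_of_mul_le_mul_left h5 ha0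
    nlinarith [mul_pos hb0 hc0]
  have h4 : k * W ≤ 2.006 * (b * c) := by
    have h5 : W ≤ 5 * c := by linarith
    have h6 : 10000 * c ≤ b * c := by gcongr; linarith
    linarith [(by ring : (k - 1) * W = k * W - W)]
  have h5 : k ≤ b := by
    by_contra hc
    push Not at hc
    have h6 : b * W < k * W := by gcongr
    have h7 : b * (3 * c) ≤ b * W := by gcongr; linarith
    nlinarith [mul_pos hb0 hc0]
  refine ⟨h5, ?_⟩
  -- multiply by W ^ 2
  have hkc : k ≤ c := by linarith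
  have h6 : b * (W - 2.006 * c) ≤ (b - k) * W := by
    linarith [(by ring : (b - k) * W = b * W - k * W),
      (by ring : b * (W - 2.006 * c) = b * W - 2.006 * (b * c))]
  have h7 : c * (W - 2.006 * b) ≤ (c - k) * W := by
    linarith [(by ring : (c - k) * W = c * W - k * W),
      (by ring : c * (W - 2.006 * b) = c * W - 2.006 * (b * c))]
  have h8 : 0 ≤ W - 2.006 * c := by linarith
  have h9 : 0 ≤ W - 2.006 * b := by linarith
  have h10 : 1.003 * a * W ≤ (W - 2.006 * c) * (W - 2.006 * b) := by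
    rw [hW]
    have e1 : (a + b + 3 * c - 2.006 * c) * (a + b + 3 * c - 2.006 * b) -
        1.003 * a * (a + b + 3 * c) =
        1.009 * (a * (c - b)) + 1.006 * (b * (c - b)) + 0.994036 * (b * c) + 2.982 * (c * c) -
          0.024 * (a * c) - 0.003 * (a * a) := by ring
    have h11 : 0 ≤ a * (c - b) := mul_nonneg ha0.le (by linarith)
    have h12 : 0 ≤ b * (c - b) := mul_nonneg hb0.le (by linarith)
    have h13 : a * c ≤ c * c := by gcongr; linarith
    have h14 : a * a ≤ c * c := by gcongr <;> linarith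
    have h15 : 0 ≤ b * c := by positivity
    have h16 : 0 ≤ c * c := by positivity
    linarith
  have h11 : (h * k) * (W * W) ≤ ((b - k) * (c - k)) * (W * W) := by
    calc (h * k) * (W * W) = h * (k * W) * W := by ring
      _ ≤ (a / 2) * (2.006 * (b * c)) * W := by gcongr
      _ = (b * c) * (1.003 * a * W) := by ring
      _ ≤ (b * c) * ((W - 2.006 * c) * (W - 2.006 * b)) := by gcongr
      _ = (b * (W - 2.006 * c)) * (c * (W - 2.006 * b)) := by ring
      _ ≤ ((b - k) * W) * ((c - k) * W) := by gcongr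
      _ = ((b - k) * (c - k)) * (W * W) := by ring
  exact le_of_mul_le_mul_right h11 (by positivity)

theorem est5_bal (a b c D sJ NJ C : ℕ) (hC : 1 ≤ C) (ha : 10000 ≤ a) (hab : a ≤ b) (hbc : b ≤ c)
    (hcD : c ≤ D) (hDC : D ≤ C * a) (hsJ : 2 * (c - 1) ≤ sJ) (hsJ' : sJ ≤ 2 * (D - 1))
    (hNJ : c ^ 2 ≤ NJ) :
    ∃ h o k v e : ℕ, a = 2 * h + o ∧ o ≤ 1 ∧ k ≤ b ∧ k ≤ c ∧ h * k ≤ (b - k) * (c - k) ∧
      D ≤ 2 ^ e ∧ v ≤ e ∧
      h * (k * (c - k) + (b - k) * k + 2 * ((b - k) * (c - k) - (h - 1) * k)) + o * (b * c) ≤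
        (sJ - (2 ^ v - 1)) * (h * k) ∧
      ((h * k * NJ + a * b * (2 ^ e * 2 ^ (e - v)) : ℕ) : ℝ) ≤
        (1 + 100 * (C : ℝ) ^ 3 / Real.sqrt a) *
          ((a * b * c * NJ : ℝ) / (1 + (((a : ℝ) - 1) + ((b : ℝ) - 1) + ((c : ℝ) - 1)) + sJ)) := by
  obtain ⟨h, hh⟩ : ∃ h, h = a / 2 := ⟨_, rfl⟩
  obtain ⟨o, ho⟩ : ∃ o, o = a % 2 := ⟨_, rfl⟩
  obtain ⟨t, ht⟩ : ∃ t, t = Nat.sqrt a := ⟨_, rfl⟩
  have ho1 : o ≤ 1 := by omega
  have hqo : a = 2 * h + o := by omega
  have ht1 : t * t ≤ a := by rw [ht]; exact Nat.sqrt_le a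
  have ht2 : a < (t + 1) * (t + 1) := by rw [ht]; exact Nat.lt_succ_sqrt a
  have ht100 : 100 ≤ t := by rw [ht, Nat.le_sqrt]; omega
  obtain ⟨v, hv⟩ : ∃ v, v = Nat.log 2 t := ⟨_, rfl⟩
  have hT1 : 2 ^ v ≤ t := by rw [hv]; exact Nat.pow_log_le_self 2 (by omega)
  have hT2 : t < 2 * 2 ^ v := by
    have := Nat.lt_pow_succ_log_self (b := 2) (by norm_num) t
    rw [← hv, Nat.succ_eq_add_one, pow_succ] at this
    omega
  obtain ⟨e, he⟩ : ∃ e, e = Nat.clog 2 D := ⟨_, rfl⟩
  have he1 : D ≤ 2 ^ e := by rw [he]; exact Nat.le_pow_clog (by norm_num) D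
  have he0 : 1 ≤ e := by
    by_contra hc
    have : e = 0 := by omega
    rw [this] at he1
    omega
  have he2 : 2 ^ e < 2 * D := by
    have := Nat.pow_pred_clog_lt_self (b := 2) (by norm_num) (x := D) (by omega)
    rw [← he, Nat.pred_eq_sub_one] at this
    have e1 : 2 ^ e = 2 * 2 ^ (e - 1) := by
      rw [← pow_succ']
      congr 1
      omega
    omega
  obtain ⟨T, hT⟩ : ∃ T, T = 2 ^ v := ⟨_, rfl⟩
  rw [← hT] at hT1 hT2
  have hta : t ≤ a := by nlinarith
  have hve : v ≤ e := by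
    have : 2 ^ v ≤ 2 ^ e := by rw [← hT]; omega
    exact (Nat.pow_le_pow_iff_right (by norm_num)).1 this
  have hT0 : 1 ≤ T := by rw [hT]; exact Nat.one_le_two_pow
  obtain ⟨M, hM⟩ : ∃ M, M = a + b + c + sJ - 3 - T := ⟨_, rfl⟩
  have hMT : M + T + 3 = a + b + c + sJ := by omega
  have hh0 : 1 ≤ h := by omega
  have hM0 : 1 ≤ M := by omega
  obtain ⟨k, hk⟩ : ∃ k, k = a * b * c / (h * M) + 1 := ⟨_, rfl⟩
  have hk1 : a * b * c < h * M * k := by
    rw [hk]
    exact Nat.lt_mul_div_succ _ (by positivity)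
  have hk0 : 1 ≤ k := by rw [hk]; exact Nat.le_add_left 1 _
  have hk2 : h * M * (k - 1) ≤ a * b * c := by
    rw [hk, Nat.add_sub_cancel]
    exact Nat.mul_div_le _ _
  -- reals
  have har : (10000 : ℝ) ≤ a := by exact_mod_cast ha
  have habr : (a : ℝ) ≤ b := by exact_mod_cast hab
  have hbcr : (b : ℝ) ≤ c := by exact_mod_cast hbc
  have hcDr : (c : ℝ) ≤ D := by exact_mod_cast hcD
  have hDCr : (D : ℝ) ≤ C * a := by exact_mod_cast hDC
  have hCr : (1 : ℝ) ≤ C := by exact_mod_cast hC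
  have hNr : (c : ℝ) ^ 2 ≤ NJ := by exact_mod_cast hNJ
  have hHr : (a : ℝ) = 2 * h + o := by exact_mod_cast hqo
  have hor : (o : ℝ) ≤ 1 := by exact_mod_cast ho1
  have hor0 : (0 : ℝ) ≤ o := by positivity
  have hS1r : 2 * ((c : ℝ) - 1) ≤ sJ := by
    have : ((2 * (c - 1) : ℕ) : ℝ) ≤ sJ := by exact_mod_cast hsJ
    rw [Nat.cast_mul, Nat.cast_sub (by omega)] at this
    push_cast at this
    exact this
  have hS2r : (sJ : ℝ) ≤ 2 * ((D : ℝ) - 1) := by
    have : (sJ : ℝ) ≤ ((2 * (D - 1) : ℕ) : ℝ) := by exact_mod_cast hsJ'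
    rw [Nat.cast_mul, Nat.cast_sub (by omega)] at this
    push_cast at this
    exact this
  have hMr : (M : ℝ) + T + 3 = a + b + c + sJ := by exact_mod_cast hMT
  have htr : (t : ℝ) * t ≤ a := by exact_mod_cast ht1
  have ht100r : (100 : ℝ) ≤ t := by exact_mod_cast ht100
  have hT1r : (T : ℝ) ≤ t := by exact_mod_cast hT1
  have hk0r : (1 : ℝ) ≤ k := by exact_mod_cast hk0
  have hk2r : (h : ℝ) * M * (k - 1) ≤ (a : ℝ) * b * c := by
    have : ((h * M * (k - 1) : ℕ) : ℝ) ≤ ((a * b * c : ℕ) : ℝ) := by exact_mod_cast hk2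
    rw [Nat.cast_mul, Nat.cast_mul, Nat.cast_sub hk0, Nat.cast_mul, Nat.cast_mul,
      Nat.cast_one] at this
    exact this
  have hta' : (t : ℝ) ≤ a / 100 := by nlinarith
  obtain ⟨hkb, hhk⟩ := cell5b har habr hbcr (h := h) (k := k) (M := M) (by linarith)
    (by linarith) hk0r (by linarith) hk2r
  have hkb' : k ≤ b := by exact_mod_cast hkb
  have hkc' : k ≤ c := by omega
  have hhk' : h * k ≤ (b - k) * (c - k) := by
    have h1 : ((h * k : ℕ) : ℝ) ≤ (((b - k) * (c - k) : ℕ) : ℝ) := by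
      rw [Nat.cast_mul, Nat.cast_mul, Nat.cast_sub hkb', Nat.cast_sub hkc']
      exact hhk
    exact_mod_cast h1
  refine ⟨h, o, k, v, e, hqo, ho1, hkb', hkc', hhk', he1, hve, ?_, ?_⟩
  · -- the count
    have hb : (h - 1) * k ≤ (b - k) * (c - k) :=
      le_trans (Nat.mul_le_mul_right _ (by omega)) hhk'
    have key : (a : ℤ) * b * c ≤ (h : ℤ) * k * (a + b + c - 3 + sJ - T) := by
      have h1 : (M : ℤ) = a + b + c - 3 + sJ - T := by omega
      rw [← h1]
      have h2 : ((a * b * c : ℕ) : ℤ) ≤ ((h * M * k : ℕ) : ℤ) := by exact_mod_cast hk1.le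
      push_cast at h2
      linarith
    have h3 := count5b (a := a) (b := b) (c := c) (sJ := sJ) (h := h) (o := o) (k := k)
      (bk := ((b - k : ℕ) : ℤ)) (ck := ((c - k : ℕ) : ℤ))
      (w := (((b - k) * (c - k) - (h - 1) * k : ℕ) : ℤ)) (T := T) (by exact_mod_cast hqo)
      (by exact_mod_cast ho1) (by omega) (by omega) (by
        rw [Nat.cast_sub hb, Nat.cast_mul, Nat.cast_mul, Nat.cast_sub hh0, Nat.cast_one])
      (by positivity) key
    have h4 : ((sJ - (T - 1) : ℕ) : ℤ) = sJ + 1 - T := by omega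
    rw [← hT]
    rw [← h4] at h3
    exact_mod_cast h3
  · -- the size
    have hs : Real.sqrt a ^ 2 = a := Real.sq_sqrt (by positivity)
    have hs1 : (t : ℝ) ≤ Real.sqrt a := by
      apply Real.le_sqrt_of_sq_le
      rw [sq]
      exact htr
    have hs2 : Real.sqrt a < t + 1 := by
      rw [Real.sqrt_lt' (by positivity)]
      have : (a : ℝ) < (t + 1) * (t + 1) := by exact_mod_cast ht2
      rw [sq]
      exact this
    have hT2r : (t : ℝ) + 1 ≤ 2 * T := by exact_mod_cast hT2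
    have h1 := size5b (A := a) (B := b) (c := c) (D := D) (N := NJ) (C := C) (SJ := sJ) (H := h)
      (K := k) (M := M) (T := T) (E := (2 : ℝ) ^ e) (F := (2 : ℝ) ^ (e - v))
      (s := Real.sqrt a) (by linarith) hs.symm (by linarith) (by linarith) habr hbcr hcDr hDCr hCr
      hS1r hS2r hNr (by linarith) (by linarith) hk2r
      (by
        have : ((2 ^ e : ℕ) : ℝ) ≤ ((2 * D : ℕ) : ℝ) := by exact_mod_cast he2.le
        push_cast at this
        exact this)
      (by positivity) (by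
        rw [hT]
        push_cast
        rw [← pow_add, Nat.sub_add_cancel hve])
    push_cast
    exact h1

end Pool.Agent.H31.TR
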